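import Pool.Agent.H34.ND.Defs
import Pool.Agent.H41.LD.Defs

/-! # Shanks' law in random models with finite range of dependence: definitions -/

set_option autoImplicit false

namespace Pool.Agent.H41.SL

open MeasureTheory Filter Topology ProbabilityTheory
open Pool.Agent.H34.ND (firstAfter)
open Pool.Agent.H41.LD (Model)

/-- all gaps occur: for every `g` there are consecutive elements `a < a'` of `A` with
`a + g < a'` -/
def Unb (A : Set ℕ) : Prop :=
  ∀ g : ℕ, ∃ k, Nat.nth (· ∈ A) k + g < Nat.nth (· ∈ A) (k + 1)

/-- the lower limit of `log p(g) / √g`, where `p(g) = firstAfter A g` -/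
noncomputable def lowerLaw (A : Set ℕ) : EReal :=
  liminf (fun g : ℕ => ((Real.log (firstAfter A g) / √(g : ℝ) : ℝ) : EReal)) atTop

/-- the upper limit of `log p(g) / √g`, where `p(g) = firstAfter A g` -/
noncomputable def upperLaw (A : Set ℕ) : EReal :=
  limsup (fun g : ℕ => ((Real.log (firstAfter A g) / √(g : ℝ) : ℝ) : EReal)) atTop

/-- There is a random model `A` of the primes with range of dependence `m` such that almost surely
`A` is infinite, `p(g)` is defined for all `g`, and `log p(g) / √g` has the lower limit `a` and the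
upper limit `b`. -/
def IsLaw (m : ℕ → ℕ) (a b : EReal) : Prop :=
  ∃ (Ω : Type) (_ : MeasurableSpace Ω) (P : Measure Ω) (_ : IsProbabilityMeasure P)
    (E : ℕ → Set Ω), Model P E m ∧
      ∀ᵐ ω ∂P, {n | ω ∈ E n}.Infinite ∧ Unb {n | ω ∈ E n} ∧
        lowerLaw {n | ω ∈ E n} = a ∧ upperLaw {n | ω ∈ E n} = b

end Pool.Agent.H41.SL
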