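import Pool.Agent.H34.ND.ShanksProb
import Pool.Agent.H41.LD.Block
import Pool.Agent.H41.SL.Defs

/-! # First occurrences of gaps: deterministic lemmas -/

set_option autoImplicit false
set_option linter.unusedSectionVars false

namespace Pool.Agent.H41.SL

open Filter Topology
open Pool.Agent.H34.ND (ratio firstAfter firstAfter_le firstAfter_spec nth_mono gap_of_free
  liminf_ge le_limsup tendsto_log_nat ev_log_mul)

variable {A : Set ℕ}

/-- the element after a gap which begins at most at `X` is at most `2 X` -/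
def Next (A : Set ℕ) : Prop :=
  ∀ᶠ X : ℕ in atTop, ∀ k, Nat.nth (· ∈ A) k ≤ X →
    Real.log (Nat.nth (· ∈ A) (k + 1)) ≤ Real.log X + Real.log 2

lemma next_of_dyadic (hinf : A.Infinite)
    (h : ∀ᶠ x : ℕ in atTop, ∃ n : ℕ, x < n ∧ n ≤ 2 * x ∧ n ∈ A) : Next A := by
  obtain ⟨x₀, hx₀⟩ := eventually_atTop.1 h
  filter_upwards [eventually_ge_atTop (Nat.nth (· ∈ A) (x₀ + 1)), eventually_ge_atTop 1] with
    X hX2 hX3 k hk
  have hX0 : (0:ℝ) < X := by exact_mod_cast hX3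
  have hpos : 0 < Nat.nth (· ∈ A) (k + 1) :=
    lt_of_le_of_lt (Nat.zero_le _) ((nth_mono hinf) (Nat.lt_succ_self k))
  rw [← Real.log_mul hX0.ne' (by norm_num)]
  apply Real.log_le_log (by exact_mod_cast hpos)
  rcases le_or_gt x₀ k with h1 | h1
  · obtain ⟨n, hn1, hn2, hnA⟩ := hx₀ _ (h1.trans ((nth_mono hinf).id_le k))
    have h2 : Nat.nth (· ∈ A) (k + 1) ≤ n := by
      classical
      have h2 : Nat.nth (· ∈ A) (Nat.count (· ∈ A) n) = n := Nat.nth_count (p := (· ∈ A)) hnA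
      rw [← h2] at hn1 ⊢
      exact (nth_mono hinf).monotone ((nth_mono hinf).lt_iff_lt.1 hn1)
    have h3 : Nat.nth (· ∈ A) (k + 1) ≤ X * 2 := by
      have h4 : Nat.nth (· ∈ A) k ≤ X := hk
      have h5 : n ≤ 2 * Nat.nth (· ∈ A) k := hn2
      omega
    exact_mod_cast h3
  · have h2 : Nat.nth (· ∈ A) (k + 1) ≤ X :=
      ((nth_mono hinf).monotone (by omega)).trans hX2
    have h3 : (Nat.nth (· ∈ A) (k + 1) : ℝ) ≤ X := by exact_mod_cast h2
    linarith

lemma liminf_le'' (hinf : A.Infinite) (hb : Next A) {lam : ℝ} (hlam : 0 < lam)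
    (h : ∃ᶠ x : ℕ in atTop, ∀ m, x < m → m ≤ x + ⌊lam * Real.log x ^ 2⌋₊ → m ∉ A) :
    liminf (ratio A) atTop ≤ ((1 / √lam : ℝ) : EReal) := by
  have ht : Tendsto (fun X : ℕ => ⌊lam * Real.log X ^ 2⌋₊) atTop atTop :=
    tendsto_nat_floor_atTop.comp
      (((tendsto_pow_atTop (two_ne_zero)).comp tendsto_log_nat).const_mul_atTop hlam)
  have hsq : 0 < √lam := Real.sqrt_pos.2 hlam
  by_contra hcon
  rw [not_le] at hcon
  obtain ⟨r, hr1, hr2⟩ := EReal.lt_iff_exists_real_btwn.1 hcon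
  have hr1' : 1 / √lam < r := EReal.coe_lt_coe_iff.1 hr1
  have hr0 : 0 < r := lt_trans (by positivity) hr1'
  refine absurd hr2 (not_lt.2 ?_)
  apply liminf_le_of_frequently_le _ (by isBoundedDefault)
  apply ht.frequently
  have hrl : 1 < r * √lam := by
    rwa [div_lt_iff₀ hsq] at hr1'
  set t : ℝ := (1 + r * √lam) / 2 with htdef
  have ht1 : 1 < t := by linarith
  have ht2 : t < r * √lam := by linarith
  have hq : 0 < r * √lam / t := by positivity
  have hq1 : 1 < r * √lam / t := by rw [lt_div_iff₀ (by linarith)]; linarith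
  have hev1 : ∀ᶠ X : ℕ in atTop, Real.log X + Real.log 2 ≤ t * Real.log X :=
    ev_log_mul (Real.log 2) ht1
  have hpow : Tendsto (fun n : ℕ => lam * Real.log n ^ 2) atTop atTop :=
    ((tendsto_pow_atTop (two_ne_zero)).comp tendsto_log_nat).const_mul_atTop hlam
  set q : ℝ := (r * √lam / t) ^ 2 with hqdef
  have hqq : 1 < q := by
    rw [hqdef]
    nlinarith
  have hev2 : ∀ᶠ X : ℕ in atTop, lam * Real.log X ^ 2 / q ≤ (⌊lam * Real.log X ^ 2⌋₊ : ℝ) := by
    filter_upwards [hpow.eventually_ge_atTop (1 / (1 - 1 / q))] with X hX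
    have h1 := Nat.lt_floor_add_one (lam * Real.log X ^ 2)
    have h2 : 0 < 1 - 1 / q := by
      rw [sub_pos, div_lt_one (by linarith)]
      exact hqq
    rw [div_le_iff₀ h2] at hX
    have h3 : lam * Real.log X ^ 2 / q = lam * Real.log X ^ 2 * (1 / q) := by ring
    rw [h3]
    nlinarith
  refine (h.and_eventually (((ht.eventually_gt_atTop (Nat.nth (· ∈ A) 0)).and
    hb).and (hev1.and hev2))).mono ?_
  rintro X ⟨hX, ⟨hg0, hnext⟩, h1, h2⟩
  set g := ⌊lam * Real.log X ^ 2⌋₊ with hg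
  obtain ⟨k, hk1, hk2⟩ := gap_of_free hinf hg0 (n := X) (g := g) hX
  have hk3 := firstAfter_le hk2
  have hk4 := hnext k hk1
  have hg1 : (0:ℝ) < g := by
    have : 0 < g := by omega
    exact_mod_cast this
  unfold ratio
  rw [EReal.coe_le_coe_iff, div_le_iff₀ (Real.sqrt_pos.2 hg1)]
  have hL : 0 ≤ Real.log X := Real.log_natCast_nonneg _
  have h5 : Real.log (firstAfter A g) ≤ Real.log (Nat.nth (· ∈ A) (k + 1)) := by
    rcases Nat.eq_zero_or_pos (firstAfter A g) with h6 | h6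
    · rw [h6]
      simp only [Nat.cast_zero, Real.log_zero]
      exact Real.log_natCast_nonneg _
    · exact Real.log_le_log (by exact_mod_cast h6) (by exact_mod_cast hk3)
  have h6 : √(lam * Real.log X ^ 2 / q) ≤ √(g:ℝ) := Real.sqrt_le_sqrt h2
  have h7 : √(lam * Real.log X ^ 2 / q) = t / r * Real.log X := by
    have h8 : lam * Real.log X ^ 2 / q = (t / r * Real.log X) ^ 2 := by
      rw [hqdef, div_pow, mul_pow, Real.sq_sqrt hlam.le]
      field_simp
    rw [h8, Real.sqrt_sq (by positivity)]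
  rw [h7] at h6
  calc Real.log (firstAfter A g) ≤ t * Real.log X := by linarith
    _ = r * (t / r * Real.log X) := by field_simp
    _ ≤ r * √(g:ℝ) := mul_le_mul_of_nonneg_left h6 hr0.le

lemma limsup_le'' (hinf : A.Infinite) (hb : Next A) {lam : ℝ} (hlam : 0 < lam)
    (h : ∀ᶠ X : ℕ in atTop, ∃ n ≤ X, ∀ m, n < m → m ≤ n + ⌊lam * Real.log X ^ 2⌋₊ → m ∉ A) :
    limsup (ratio A) atTop ≤ ((1 / √lam : ℝ) : EReal) := by
  have hsq : 0 < √lam := Real.sqrt_pos.2 hlam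
  by_contra hcon
  rw [not_le] at hcon
  obtain ⟨r, hr1, hr2⟩ := EReal.lt_iff_exists_real_btwn.1 hcon
  have hr1' : 1 / √lam < r := EReal.coe_lt_coe_iff.1 hr1
  have hr0 : 0 < r := lt_trans (by positivity) hr1'
  refine absurd hr2 (not_lt.2 ?_)
  apply limsup_le_of_le (by isBoundedDefault)
  have hX : Tendsto (fun g : ℕ => ⌈Real.exp (√((g:ℝ) / lam))⌉₊) atTop atTop := by
    apply tendsto_nat_ceil_atTop.comp
    apply Real.tendsto_exp_atTop.comp
    apply Real.tendsto_sqrt_atTop.comp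
    exact tendsto_natCast_atTop_atTop.atTop_div_const hlam
  have hsg : Tendsto (fun g : ℕ => √(g:ℝ)) atTop atTop :=
    Real.tendsto_sqrt_atTop.comp tendsto_natCast_atTop_atTop
  filter_upwards [hX.eventually h, hX.eventually hb,
    eventually_gt_atTop (Nat.nth (· ∈ A) 0),
    hsg.eventually_ge_atTop (2 * Real.log 2 / (r - 1 / √lam))] with g h1 h2 h3 h4
  set X := ⌈Real.exp (√((g:ℝ) / lam))⌉₊ with hXdef
  have hXe : Real.exp (√((g:ℝ) / lam)) ≤ X := Nat.le_ceil _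
  have hlogX : √((g:ℝ) / lam) ≤ Real.log X := by
    rw [← Real.log_exp (√((g:ℝ) / lam))]
    exact Real.log_le_log (Real.exp_pos _) hXe
  have hgX : g ≤ ⌊lam * Real.log X ^ 2⌋₊ := by
    apply Nat.le_floor
    have h5 : √((g:ℝ) / lam) ^ 2 ≤ Real.log X ^ 2 := by
      gcongr
    rw [Real.sq_sqrt (by positivity), div_le_iff₀ hlam] at h5
    linarith
  obtain ⟨n, hn, hfree⟩ := h1
  obtain ⟨k, hk1, hk2⟩ := gap_of_free hinf h3 (n := n) (g := g) fun m hm1 hm2 =>
    hfree m hm1 (hm2.trans (by omega))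
  have hk3 := firstAfter_le hk2
  have hk4 := h2 k (hk1.trans hn)
  have hg1 : (0:ℝ) < g := by
    have : 0 < g := by omega
    exact_mod_cast this
  have h5 : Real.log (firstAfter A g) ≤ Real.log (Nat.nth (· ∈ A) (k + 1)) := by
    rcases Nat.eq_zero_or_pos (firstAfter A g) with h6 | h6
    · rw [h6]
      simp only [Nat.cast_zero, Real.log_zero]
      exact Real.log_natCast_nonneg _
    · exact Real.log_le_log (by exact_mod_cast h6) (by exact_mod_cast hk3)
  have hX2 : (X:ℝ) ≤ 2 * Real.exp (√((g:ℝ) / lam)) := by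
    have h6 : (X:ℝ) < Real.exp (√((g:ℝ) / lam)) + 1 := Nat.ceil_lt_add_one (Real.exp_pos _).le
    have h7 : 1 ≤ Real.exp (√((g:ℝ) / lam)) := Real.one_le_exp (Real.sqrt_nonneg _)
    linarith
  have hlogX2 : Real.log X ≤ Real.log 2 + √((g:ℝ) / lam) := by
    have hXpos : (0:ℝ) < X := lt_of_lt_of_le (Real.exp_pos _) hXe
    have h6 := Real.log_le_log hXpos hX2
    rwa [Real.log_mul (by norm_num) (Real.exp_pos _).ne', Real.log_exp] at h6
  unfold ratio
  rw [EReal.coe_le_coe_iff, div_le_iff₀ (Real.sqrt_pos.2 hg1)]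
  have h8 : √((g:ℝ) / lam) = 1 / √lam * √(g:ℝ) := by
    rw [Real.sqrt_div (by positivity)]
    ring
  have h9 : 0 < r - 1 / √lam := by linarith
  rw [div_le_iff₀ h9] at h4
  nlinarith

/-- for all large `X` there is an empty window of length `lam (log X) ^ 2` which starts at
most at `X` -/
def GapsAll (A : Set ℕ) (lam : ℝ) : Prop :=
  ∀ᶠ X : ℕ in atTop, ∃ n ≤ X, ∀ m, n < m → m ≤ n + ⌊lam * Real.log X ^ 2⌋₊ → m ∉ A

/-- for infinitely many `x` the window `(x, x + lam (log x) ^ 2]` is empty -/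
def GapsIO (A : Set ℕ) (lam : ℝ) : Prop :=
  ∃ᶠ x : ℕ in atTop, ∀ m, x < m → m ≤ x + ⌊lam * Real.log x ^ 2⌋₊ → m ∉ A

/-- for infinitely many `X` all windows of length `lam (log X) ^ 2` which start at most at `X` are
hit -/
def HitIO (A : Set ℕ) (lam : ℝ) : Prop :=
  ∃ᶠ X : ℕ in atTop, ∀ n ≤ X, ∃ m, n < m ∧ m ≤ n + ⌊lam * Real.log X ^ 2⌋₊ ∧ m ∈ A

lemma gapsAll_of_hasGaps {lam : ℝ} (hlam : 0 ≤ lam) (h : LD.HasGaps A lam) : GapsAll A lam := by
  filter_upwards [h] with X hX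
  obtain ⟨x, h1, h2, h3⟩ := hX
  have h4 : 0 ≤ lam * Real.log X ^ 2 := by positivity
  refine ⟨x, ?_, fun m hm1 hm2 => h3 m hm1 ?_⟩
  · have : (x : ℝ) ≤ X := by linarith
    exact_mod_cast this
  · have h5 : (m : ℝ) ≤ ((x + ⌊lam * Real.log X ^ 2⌋₊ : ℕ) : ℝ) := by exact_mod_cast hm2
    have h6 : (⌊lam * Real.log X ^ 2⌋₊ : ℝ) ≤ lam * Real.log X ^ 2 := Nat.floor_le h4
    push_cast at h5
    linarith

lemma ratio_nonneg (g : ℕ) : 0 ≤ ratio A g := by
  unfold ratio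
  have h1 : 0 ≤ Real.log (firstAfter A g) / √(g : ℝ) :=
    div_nonneg (Real.log_natCast_nonneg _) (Real.sqrt_nonneg _)
  exact_mod_cast h1

lemma sqrt_one_div_sq {r : ℝ} (hr : 0 < r) : 1 / √(1 / r ^ 2) = r := by
  rw [Real.sqrt_div (by norm_num), Real.sqrt_one, Real.sqrt_sq hr.le, one_div_one_div]

lemma le_liminf_ratio (hinf : A.Infinite) (hunb : Unb A) {a : EReal}
    (h1 : ∀ r : ℚ, (0:ℝ) < r → ((r : ℝ) : EReal) < a → LD.Upper A (1 / (r:ℝ) ^ 2)) :
    a ≤ liminf (ratio A) atTop := by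
  have h0 : (0 : EReal) ≤ liminf (ratio A) atTop :=
    le_liminf_of_le (by isBoundedDefault) (Eventually.of_forall fun g => ratio_nonneg g)
  by_contra hcon
  rw [not_le] at hcon
  obtain ⟨r, hr1, hr2⟩ := EReal.lt_iff_exists_rat_btwn.1 hcon
  have hr0 : (0:ℝ) < r := by
    have : (0:EReal) < ((r : ℝ) : EReal) := lt_of_le_of_lt h0 hr1
    exact_mod_cast this
  have h3 := liminf_ge hinf hunb (lam := 1 / (r:ℝ) ^ 2) (by positivity) (h1 r hr0 hr2)
  rw [sqrt_one_div_sq hr0] at h3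
  exact absurd hr1 (not_lt.2 h3)

lemma limsup_ratio_le (hinf : A.Infinite) (hb : Next A) {b : EReal} (hb0 : 0 ≤ b)
    (h2 : ∀ r : ℚ, (0:ℝ) < r → b < ((r : ℝ) : EReal) → GapsAll A (1 / (r:ℝ) ^ 2)) :
    limsup (ratio A) atTop ≤ b := by
  by_contra hcon
  rw [not_le] at hcon
  obtain ⟨r, hr1, hr2⟩ := EReal.lt_iff_exists_rat_btwn.1 hcon
  have hr0 : (0:ℝ) < r := by
    have : (0:EReal) < ((r : ℝ) : EReal) := lt_of_le_of_lt hb0 hr1
    exact_mod_cast this
  have h3 := limsup_le'' hinf hb (lam := 1 / (r:ℝ) ^ 2) (by positivity) (h2 r hr0 hr1)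
  rw [sqrt_one_div_sq hr0] at h3
  exact absurd hr2 (not_lt.2 h3)

lemma liminf_ratio_le (hinf : A.Infinite) (hb : Next A) {a : EReal} (ha0 : 0 ≤ a)
    (h2 : ∀ r : ℚ, (0:ℝ) < r → a < ((r : ℝ) : EReal) → GapsIO A (1 / (r:ℝ) ^ 2)) :
    liminf (ratio A) atTop ≤ a := by
  by_contra hcon
  rw [not_le] at hcon
  obtain ⟨r, hr1, hr2⟩ := EReal.lt_iff_exists_rat_btwn.1 hcon
  have hr0 : (0:ℝ) < r := by
    have : (0:EReal) < ((r : ℝ) : EReal) := lt_of_le_of_lt ha0 hr1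
    exact_mod_cast this
  have h3 := liminf_le'' hinf hb (lam := 1 / (r:ℝ) ^ 2) (by positivity) (h2 r hr0 hr1)
  rw [sqrt_one_div_sq hr0] at h3
  exact absurd hr2 (not_lt.2 h3)

lemma le_limsup_ratio (hinf : A.Infinite) (hunb : Unb A) {b : EReal}
    (h1 : ∀ r : ℚ, (0:ℝ) < r → ((r : ℝ) : EReal) < b → HitIO A (1 / (r:ℝ) ^ 2)) :
    b ≤ limsup (ratio A) atTop := by
  have h0 : (0 : EReal) ≤ limsup (ratio A) atTop :=
    le_limsup_of_frequently_le (Eventually.frequently (Eventually.of_forall fun g =>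
      ratio_nonneg g)) (by isBoundedDefault)
  by_contra hcon
  rw [not_le] at hcon
  obtain ⟨r, hr1, hr2⟩ := EReal.lt_iff_exists_rat_btwn.1 hcon
  have hr0 : (0:ℝ) < r := by
    have : (0:EReal) < ((r : ℝ) : EReal) := lt_of_le_of_lt h0 hr1
    exact_mod_cast this
  have h3 := le_limsup hinf hunb (lam := 1 / (r:ℝ) ^ 2) (by positivity) (h1 r hr0 hr2)
  rw [sqrt_one_div_sq hr0] at h3
  exact absurd hr1 (not_lt.2 h3)

lemma unb_of_free (hinf : A.Infinite) (h : ∀ g : ℕ, ∃ n, ∀ m, n < m → m ≤ n + g → m ∉ A) :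
    Unb A := by
  intro g
  obtain ⟨n, hn⟩ := h (max g (Nat.nth (· ∈ A) 0 + 1))
  obtain ⟨k, _, hk⟩ := gap_of_free hinf (n := n) (g := max g (Nat.nth (· ∈ A) 0 + 1)) (by
    have := le_max_right g (Nat.nth (· ∈ A) 0 + 1)
    omega) hn
  have := le_max_left g (Nat.nth (· ∈ A) 0 + 1)
  exact ⟨k, by omega⟩

end Pool.Agent.H41.SL
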