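import Pool.Agent.H41.SL.Mix

/-! # The exact range of the laws of the first occurrences -/

set_option autoImplicit false
set_option linter.unusedSectionVars false

namespace Pool.Agent.H41.SL

open MeasureTheory Filter Topology ProbabilityTheory
open Pool.Agent.H34.ND (Free ratio)
open Pool.Agent.H41.LD

lemma IsLaw.mono {m m' : ℕ → ℕ} (h : ∀ n, m' n ≤ m n) {a b : EReal} (hl : IsLaw m' a b) :
    IsLaw m a b := by
  obtain ⟨Ω, mΩ, P, hP, E, hM, hx⟩ := hl
  refine ⟨Ω, mΩ, P, hP, E, ⟨⟨hM.range.meas, fun n => ?_⟩, hM.dens⟩, hx⟩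
  apply indep_of_indep_of_le_right (hM.range.indep n)
  apply MeasurableSpace.generateFrom_mono
  rintro s ⟨k, hk, rfl⟩
  exact ⟨k, by have := h n; omega, rfl⟩

variable {Ω : Type*} [mΩ : MeasurableSpace Ω] {P : Measure Ω} {E : ℕ → Set Ω} {m : ℕ → ℕ}
  [IsProbabilityMeasure P]

lemma lower_le_upper (A : Set ℕ) : lowerLaw A ≤ upperLaw A := liminf_le_limsup

lemma lowerLaw_nonneg (A : Set ℕ) : 0 ≤ lowerLaw A :=
  le_liminf_of_le (by isBoundedDefault) (Eventually.of_forall fun g => ratio_nonneg (A := A) g)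

/-- the bound for the upper limit below the threshold -/
lemma upper_below (h : Model P E m) {l : ℝ} (hl : Real.exp (-1) < l) (hl1 : l ≤ 1)
    (hm : ∀ ε : ℝ, 0 < ε → ∀ᶠ n : ℕ in atTop,
      (m n : ℝ) ≤ (l * Real.log (1 / l) + ε) * Real.log n) :
    ∀ᵐ ω ∂P, {n | ω ∈ E n}.Infinite ∧ Unb {n | ω ∈ E n} ∧
      upperLaw {n | ω ∈ E n} ≤ ((1 / √l : ℝ) : EReal) := by
  have hl0 : 0 < l := (Real.exp_pos _).trans hl
  have hc0 : 0 ≤ l * Real.log (1 / l) :=
    mul_nonneg hl0.le (Real.log_nonneg (by rw [le_div_iff₀ hl0]; linarith))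
  have hm2 : ∀ᶠ n : ℕ in atTop, m n ^ 2 ≤ n := by
    filter_upwards [hm 1 one_pos, ev_log_le ((l * Real.log (1 / l) + 1) ^ 2) 2] with n h1 h2
    have h3 : ((m n : ℝ)) ^ 2 ≤ ((l * Real.log (1 / l) + 1) * Real.log n) ^ 2 :=
      pow_le_pow_left₀ (Nat.cast_nonneg _) h1 2
    have h4 : ((m n ^ 2 : ℕ) : ℝ) ≤ n := by
      push_cast
      nlinarith
    exact_mod_cast h4
  have h1 : ∀ ε, 0 < ε → ∀ᶠ n : ℕ in atTop, P.real (E n) * Real.log n ≤ 1 + ε := by
    intro ε hε
    filter_upwards [h.dens.eventually (gt_mem_nhds (show (1:ℝ) < 1 + ε by linarith))] with n hn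
    exact hn.le
  filter_upwards [basics h hm2, h.range.delayed.hasGaps_all one_pos hl hl1 h1 (by simpa using hm)]
    with ω h2 h3
  obtain ⟨hinf, hnext, hunb⟩ := h2
  refine ⟨hinf, hunb, limsup_ratio_le hinf hnext ?_ ?_⟩
  · have : (0:ℝ) ≤ 1 / √l := by positivity
    exact_mod_cast this
  · intro r hr0 hr1
    have hr1' : 1 / √l < r := by exact_mod_cast hr1
    apply gapsAll_of_hasGaps (by positivity)
    apply h3
    rw [div_one]
    have h4 : 0 < √l := Real.sqrt_pos.2 hl0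
    rw [div_lt_iff₀ h4] at hr1'
    rw [div_lt_iff₀ (by positivity)]
    have h5 : √l * √l = l := Real.mul_self_sqrt hl0.le
    nlinarith

/-- the bounds for a bounded range of dependence -/
lemma bounds_const {d : ℕ} (h : Model P E fun _ => d) :
    ∀ᵐ ω ∂P, {n | ω ∈ E n}.Infinite ∧ Unb {n | ω ∈ E n} ∧
      ((1 / √((d : ℝ) + 1) : ℝ) : EReal) ≤ lowerLaw {n | ω ∈ E n} ∧
      upperLaw {n | ω ∈ E n} ≤ 1 := by
  have he : Real.exp (-1) < 1 := by
    have := Real.exp_lt_exp.2 (show (-1:ℝ) < 0 by norm_num)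
    rwa [Real.exp_zero] at this
  have h1 := upper_below h (l := 1) he le_rfl (by
    intro ε hε
    filter_upwards [ev_log_ge (d / ε)] with n hn
    rw [div_le_iff₀ hε] at hn
    simp
    linarith)
  have h2 : ∀ᵐ ω ∂P, ∀ r : ℚ, (0:ℝ) < r → ((r : ℝ) : EReal) < ((1 / √((d : ℝ) + 1) : ℝ) : EReal) →
      LD.Upper {n | ω ∈ E n} (1 / (r:ℝ) ^ 2) := by
    rw [ae_all_iff]
    intro r
    by_cases hr : (0:ℝ) < r ∧ ((r : ℝ) : EReal) < ((1 / √((d : ℝ) + 1) : ℝ) : EReal)
    · have hr0 := hr.1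
      have hr1 : (r:ℝ) < 1 / √((d : ℝ) + 1) := by exact_mod_cast hr.2
      have hd : (0:ℝ) < (d : ℝ) + 1 := by positivity
      have h4 : 0 < √((d : ℝ) + 1) := Real.sqrt_pos.2 hd
      have h5 : √((d : ℝ) + 1) * √((d : ℝ) + 1) = (d : ℝ) + 1 := Real.mul_self_sqrt hd.le
      rw [lt_div_iff₀ h4] at hr1
      have h6 : (d : ℝ) + 1 < 1 / (r:ℝ) ^ 2 := by
        rw [lt_div_iff₀ (by positivity)]
        have h7 : (r:ℝ) * √((d : ℝ) + 1) * ((r:ℝ) * √((d : ℝ) + 1)) < 1 := by
          have h8 : 0 < (r:ℝ) * √((d : ℝ) + 1) := by positivity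
          nlinarith
        nlinarith
      filter_upwards [h.upper h6] with ω hω _ _
      exact hω
    · exact Eventually.of_forall fun ω h' h'' => absurd ⟨h', h''⟩ hr
  filter_upwards [h1, h2] with ω h3 h4
  obtain ⟨hinf, hunb, hup⟩ := h3
  refine ⟨hinf, hunb, le_liminf_ratio hinf hunb h4, ?_⟩
  simpa using hup

/-! ### recipes for all values -/

lemma sqrt_one_div_one_div_sq {v : ℝ} (hv : 0 < v) : √(1 / (1 / v ^ 2)) = v := by
  rw [one_div_one_div, Real.sqrt_sq hv.le]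

lemma recipe_const {d : ℕ} {v : EReal} (h1 : ((1 / √((d : ℝ) + 1) : ℝ) : EReal) ≤ v)
    (h2 : v ≤ 1) : ∃ (len : ℕ → ℕ) (φ : ℕ → Finset ℕ → ℝ), Recipe (fun _ => d) len φ ∧
      HasRate len φ v := by
  induction v using EReal.rec with
  | bot => exact absurd h1 (by simp)
  | top => exact absurd h2 (not_le.2 (EReal.coe_lt_top 1))
  | coe v =>
    have hv1 : 1 / √((d : ℝ) + 1) ≤ v := by exact_mod_cast h1
    have hv2 : v ≤ 1 := by exact_mod_cast h2
    have hd : (0:ℝ) < (d : ℝ) + 1 := by positivity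
    have h4 : 0 < √((d : ℝ) + 1) := Real.sqrt_pos.2 hd
    have h5 : √((d : ℝ) + 1) * √((d : ℝ) + 1) = (d : ℝ) + 1 := Real.mul_self_sqrt hd.le
    have hv0 : 0 < v := lt_of_lt_of_le (by positivity) hv1
    rw [div_le_iff₀ h4] at hv1
    have h6 := exists_clus_rate (m := fun _ => d) (K₀ := d + 1) (x := 1 / v ^ 2)
      (Eventually.of_forall fun n => by omega) (by
        rw [le_div_iff₀ (by positivity), one_mul]
        nlinarith) (by
        rw [div_le_iff₀ (by positivity)]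
        push_cast
        have h8 : 1 ≤ (v * √((d : ℝ) + 1)) * (v * √((d : ℝ) + 1)) := by nlinarith
        nlinarith)
    rwa [sqrt_one_div_one_div_sq hv0] at h6

lemma recipe_le_one {m : ℕ → ℕ} (hm : Tendsto m atTop atTop) {v : EReal} (h1 : 0 ≤ v)
    (h2 : v ≤ 1) : ∃ (len : ℕ → ℕ) (φ : ℕ → Finset ℕ → ℝ), Recipe m len φ ∧
      HasRate len φ v := by
  induction v using EReal.rec with
  | bot => exact absurd h1 (by simp)
  | top => exact absurd h2 (not_le.2 (EReal.coe_lt_top 1))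
  | coe v =>
    have hv1 : 0 ≤ v := by exact_mod_cast h1
    have hv2 : v ≤ 1 := by exact_mod_cast h2
    rcases hv1.eq_or_lt with hv0 | hv0
    · rw [← hv0]
      exact exists_clus_zero hm
    · have h6 := exists_clus_rate (m := m) (K₀ := ⌈1 / v ^ 2⌉₊) (x := 1 / v ^ 2)
        (by
          filter_upwards [hm.eventually_ge_atTop ⌈1 / v ^ 2⌉₊] with n hn
          omega) (by
          rw [le_div_iff₀ (by positivity), one_mul]
          nlinarith) (Nat.le_ceil _)
      rwa [sqrt_one_div_one_div_sq hv0] at h6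

theorem laws_const (d : ℕ) (a b : EReal) : IsLaw (fun _ => d) a b ↔
    ((1 / √((d : ℝ) + 1) : ℝ) : EReal) ≤ a ∧ a ≤ b ∧ b ≤ 1 := by
  constructor
  · rintro ⟨Ω, mΩ, P, hP, E, hM, hx⟩
    obtain ⟨ω, h1, h2⟩ := ((bounds_const hM).and hx).exists
    obtain ⟨-, -, h3, h4⟩ := h1
    obtain ⟨-, -, h5, h6⟩ := h2
    rw [← h5, ← h6]
    exact ⟨h3, lower_le_upper _, h4⟩
  · rintro ⟨h1, h2, h3⟩
    obtain ⟨len₁, φ₁, R₁, H₁⟩ := recipe_const h1 (h2.trans h3)
    obtain ⟨len₂, φ₂, R₂, H₂⟩ := recipe_const (h1.trans h2) h3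
    refine law_of_recipes R₁ R₂ (le_trans ?_ h1) h2 H₁ H₂ ?_
    · have : (0:ℝ) ≤ 1 / √((d : ℝ) + 1) := by positivity
      exact_mod_cast this
    · exact eventually_ge_atTop (d ^ 2)

theorem laws_below {m : ℕ → ℕ} {l : ℝ} (hl : Real.exp (-1) < l) (hl1 : l ≤ 1)
    (hm : Tendsto m atTop atTop)
    (hm2 : Tendsto (fun n : ℕ => (m n : ℝ) / Real.log n) atTop (𝓝 (l * Real.log (1 / l))))
    (a b : EReal) : IsLaw m a b ↔ 0 ≤ a ∧ a ≤ b ∧ b ≤ ((1 / √l : ℝ) : EReal) := by
  have hl0 : 0 < l := (Real.exp_pos _).trans hl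
  obtain ⟨hlow, hup⟩ := lower_of_tendsto hm2
  have hc : 0 ≤ l * Real.log (1 / l) :=
    mul_nonneg hl0.le (Real.log_nonneg (by rw [le_div_iff₀ hl0]; linarith))
  have hmsq : ∀ᶠ n : ℕ in atTop, m n ^ 2 ≤ n := by
    filter_upwards [hup 1 one_pos, ev_log_le ((l * Real.log (1 / l) + 1) ^ 2) 2] with n h1 h2
    have h3 : ((m n : ℝ)) ^ 2 ≤ ((l * Real.log (1 / l) + 1) * Real.log n) ^ 2 :=
      pow_le_pow_left₀ (Nat.cast_nonneg _) h1 2
    have h4 : ((m n ^ 2 : ℕ) : ℝ) ≤ n := by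
      push_cast
      nlinarith
    exact_mod_cast h4
  constructor
  · rintro ⟨Ω, mΩ, P, hP, E, hM, hx⟩
    obtain ⟨ω, h1, h2⟩ := ((upper_below hM hl hl1 hup).and hx).exists
    obtain ⟨-, -, h4⟩ := h1
    obtain ⟨-, -, h5, h6⟩ := h2
    rw [← h5, ← h6]
    exact ⟨lowerLaw_nonneg _, lower_le_upper _, h4⟩
  · rintro ⟨h1, h2, h3⟩
    have hrec : ∀ v : EReal, 0 ≤ v → v ≤ ((1 / √l : ℝ) : EReal) →
        ∃ (len : ℕ → ℕ) (φ : ℕ → Finset ℕ → ℝ), Recipe m len φ ∧ HasRate len φ v := by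
      intro v hv0 hv1
      rcases le_or_gt v 1 with h4 | h4
      · exact recipe_le_one hm hv0 h4
      · induction v using EReal.rec with
        | bot => exact absurd hv0 (by simp)
        | top => exact absurd hv1 (not_le.2 (EReal.coe_lt_top _))
        | coe v =>
          have hv2 : v ≤ 1 / √l := by exact_mod_cast hv1
          have hv3 : 1 < v := by exact_mod_cast h4
          have h5 : 0 < √l := Real.sqrt_pos.2 hl0
          have h6 : √l * √l = l := Real.mul_self_sqrt hl0.le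
          rw [le_div_iff₀ h5] at hv2
          have h7 : v ^ 2 ≤ 1 / l := by
            rw [le_div_iff₀ hl0]
            have h8 : (v * √l) * (v * √l) ≤ 1 := by
              have : 0 < v * √l := by positivity
              nlinarith
            nlinarith
          have h9 := exists_core_rate (ρ := v ^ 2) hc hlow (by nlinarith) fun σ hσ =>
            exists_tau_gt hl hl1 (hσ.trans_le h7)
          rwa [Real.sqrt_sq (by linarith)] at h9
    obtain ⟨len₁, φ₁, R₁, H₁⟩ := hrec a h1 (h2.trans h3)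
    obtain ⟨len₂, φ₂, R₂, H₂⟩ := hrec b (h1.trans h2) h3
    exact law_of_recipes R₁ R₂ h1 h2 H₁ H₂ hmsq

theorem laws_above {m : ℕ → ℕ} {c : ℝ} (hc : Real.exp (-1) < c)
    (hm : ∀ᶠ n : ℕ in atTop, c * Real.log n ≤ m n) (a b : EReal) :
    IsLaw m a b ↔ 0 ≤ a ∧ a ≤ b := by
  have hc0 : 0 < c := (Real.exp_pos _).trans hc
  constructor
  · rintro ⟨Ω, mΩ, P, hP, E, hM, hx⟩
    obtain ⟨ω, -, -, h5, h6⟩ := hx.exists
    rw [← h5, ← h6]
    exact ⟨lowerLaw_nonneg _, lower_le_upper _⟩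
  · rintro ⟨h1, h2⟩
    -- the smaller range of dependence
    set m' : ℕ → ℕ := fun n => min (m n) (Nat.sqrt n) with hm'
    have hmsq : ∀ᶠ n : ℕ in atTop, m' n ^ 2 ≤ n := by
      apply Eventually.of_forall
      intro n
      have h3 : m' n ≤ Nat.sqrt n := min_le_right _ _
      exact (Nat.pow_le_pow_left h3 2).trans (Nat.sqrt_le' n)
    have hlog : ∀ᶠ n : ℕ in atTop, c * Real.log n ≤ m' n := by
      filter_upwards [hm, ev_log (β := 1 / 2) (by norm_num) (c + 1) 1, ev_log_ge 1,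
        eventually_gt_atTop 0] with n h3 h4 h5 h6
      have hn0 : (0:ℝ) < n := by exact_mod_cast h6
      have hexp : Real.exp (1 / 2 * Real.log n) = √n := by
        rw [Real.sqrt_eq_rpow, Real.rpow_def_of_pos hn0]
        congr 1
        ring
      rw [hexp, pow_one] at h4
      have h7 : √(n:ℝ) < Nat.sqrt n + 1 := by
        rw [Real.sqrt_lt' (by positivity)]
        have := Nat.lt_succ_sqrt' n
        exact_mod_cast this
      simp only [hm', Nat.cast_min]
      apply le_min h3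
      nlinarith
    have hlow : ∀ ε : ℝ, 0 < ε → ∀ᶠ n : ℕ in atTop, (c - ε) * Real.log n ≤ m' n := by
      intro ε hε
      filter_upwards [hlog] with n hn
      have := mul_nonneg hε.le (Real.log_natCast_nonneg n)
      linarith
    have htend : Tendsto m' atTop atTop := by
      have h1 : Tendsto (fun n : ℕ => c * Real.log n) atTop atTop :=
        tendsto_log_nat.const_mul_atTop hc0
      have h2 : Tendsto (fun n : ℕ => (m' n : ℝ)) atTop atTop := tendsto_atTop_mono' _ hlog h1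
      exact tendsto_natCast_atTop_iff.1 h2
    apply IsLaw.mono (m' := m') (fun n => min_le_left _ _)
    have hrec : ∀ v : EReal, 0 ≤ v →
        ∃ (len : ℕ → ℕ) (φ : ℕ → Finset ℕ → ℝ), Recipe m' len φ ∧ HasRate len φ v := by
      intro v hv0
      rcases le_or_gt v 1 with h4 | h4
      · exact recipe_le_one htend hv0 h4
      · induction v using EReal.rec with
        | bot => exact absurd hv0 (by simp)
        | top => exact exists_core_top hc0.le hlow fun σ => exists_tau_gt' hc σ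
        | coe v =>
          have hv3 : 1 < v := by exact_mod_cast h4
          have h9 := exists_core_rate (ρ := v ^ 2) hc0.le hlow (by nlinarith) fun σ _ =>
            exists_tau_gt' hc σ
          rwa [Real.sqrt_sq (by linarith)] at h9
    obtain ⟨len₁, φ₁, R₁, H₁⟩ := hrec a h1
    obtain ⟨len₂, φ₂, R₂, H₂⟩ := hrec b (h1.trans h2)
    exact law_of_recipes R₁ R₂ h1 h2 H₁ H₂ hmsq

end Pool.Agent.H41.SL
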