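import Pool.Agent.H41.SL.Det
import Pool.Agent.H41.LD.Main

/-! # Every interval `(x, 2 x]` is hit -/

set_option autoImplicit false
set_option linter.unusedSectionVars false

namespace Pool.Agent.H41.SL

open MeasureTheory Filter Topology ProbabilityTheory
open Pool.Agent.H34.ND (Free)
open Pool.Agent.H41.LD (Model RangeDep)

variable {Ω : Type*} [mΩ : MeasurableSpace Ω] {P : Measure Ω} {E : ℕ → Set Ω} {m : ℕ → ℕ}
  [IsProbabilityMeasure P]

lemma dyadic (h : Model P E m) (hm : ∀ᶠ n : ℕ in atTop, m n ^ 2 ≤ n) :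
    ∀ᵐ ω ∂P, ∀ᶠ x : ℕ in atTop, ∃ n : ℕ, x < n ∧ n ≤ 2 * x ∧ n ∈ {n | ω ∈ E n} := by
  obtain ⟨n₁, hn₁⟩ := eventually_atTop.1 hm
  have hd : ∀ᶠ n : ℕ in atTop, 1 / 2 < P.real (E n) * Real.log n :=
    h.dens.eventually (lt_mem_nhds (by norm_num))
  obtain ⟨n₂, hn₂⟩ := eventually_atTop.1 hd
  have hbound : ∀ᶠ x : ℕ in atTop, P.real (Free E x (2 * x)) ≤ ((x : ℝ) ^ 2)⁻¹ := by
    filter_upwards [LD.ev_log (β := 1 / 2) (by norm_num) 100 2, LD.ev_log_ge 2,
      eventually_ge_atTop (n₁ + n₂ + 100)] with x hx1 hx2 hx3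
    set s : ℕ := Nat.sqrt (2 * x) + 1 with hs
    set k : ℕ := x / (2 * s) with hk
    have hs0 : 0 < s := by omega
    have hks : k * (2 * s) ≤ x := Nat.div_mul_le_self _ _
    set t : ℕ → ℕ := fun i => Nat.rec (x + 1) (fun _ u => u + m u + 1) i with ht
    have ht0 : t 0 = x + 1 := rfl
    have hts : ∀ i, t (i + 1) = t i + m (t i) + 1 := fun i => rfl
    have htx : ∀ i, x + 1 ≤ t i := by
      intro i
      induction i with
      | zero => exact le_rfl
      | succ i ih =>
        rw [hts]
        omega
    have htle : ∀ i ≤ k, t i ≤ x + 1 + i * s := by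
      intro i
      induction i with
      | zero =>
        intro _
        rw [ht0]
        omega
      | succ i ih =>
        intro hi
        have h1 := ih (by omega)
        have h2 : i * s ≤ k * s := Nat.mul_le_mul_right _ (by omega)
        have h3 : t i ≤ 2 * x := by
          have : k * (2 * s) = 2 * (k * s) := by ring
          omega
        have h4 := hn₁ (t i) (by have := htx i; omega)
        have h5 : m (t i) ≤ Nat.sqrt (2 * x) := by
          rw [Nat.le_sqrt']
          exact h4.trans h3
        rw [hts]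
        have h6 : (i + 1) * s = i * s + s := by ring
        omega
    have htk : ∀ i ≤ k, t i ≤ 2 * x := by
      intro i hi
      have h1 := htle i hi
      have h2 : i * s ≤ k * s := Nat.mul_le_mul_right _ hi
      have : k * (2 * s) = 2 * (k * s) := by ring
      omega
    have hfree : Free E x (2 * x) ⊆ Free E x (t k) :=
      Pool.Agent.H34.ND.free_mono le_rfl (htk k le_rfl)
    refine (measureReal_mono hfree).trans ?_
    refine (h.range.free_le_exp (a := x) (t := t) (by rw [ht0]; omega) (fun i => by
      rw [hts]; omega) k).trans ?_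
    have hx0 : (100:ℝ) ≤ x := by
      have : 100 ≤ x := by omega
      exact_mod_cast this
    set L : ℝ := Real.log x with hL
    have hterm : ∀ i ∈ Finset.range (k + 1), 1 / (4 * L) ≤ P.real (E (t i)) := by
      intro i hi
      rw [Finset.mem_range] at hi
      have h1 := hn₂ (t i) (by have := htx i; omega)
      have h2 : ((t i : ℕ) : ℝ) ≤ 2 * x := by exact_mod_cast htk i (by omega)
      have h3 : (0:ℝ) < t i := by
        have : 0 < t i := by have := htx i; omega
        exact_mod_cast this
      have h4 : Real.log (t i) ≤ 2 * L := by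
        have h5 : Real.log (t i) ≤ Real.log (2 * x) := Real.log_le_log h3 h2
        rw [Real.log_mul (by norm_num) (by linarith), ← hL] at h5
        have := Real.log_two_lt_d9
        linarith
      rw [div_le_iff₀ (by linarith)]
      have h6 : P.real (E (t i)) * Real.log (t i) ≤ P.real (E (t i)) * (2 * L) :=
        mul_le_mul_of_nonneg_left h4 measureReal_nonneg
      linarith
    have hsum := Finset.card_nsmul_le_sum _ _ _ hterm
    rw [Finset.card_range, nsmul_eq_mul] at hsum
    have hx2' : ((x : ℝ) ^ 2)⁻¹ = Real.exp (-(2 * L)) := by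
      rw [Real.exp_neg]
      congr 1
      rw [mul_comm, Real.exp_mul, LD.exp_log_nat (by omega)]
      norm_num
    rw [hx2']
    apply Real.exp_le_exp.2
    apply neg_le_neg
    refine le_trans ?_ hsum
    rw [mul_one_div, le_div_iff₀ (by linarith)]
    -- `8 L² ≤ k + 1`
    have hexp : Real.exp (1 / 2 * L) = √x := by
      rw [Real.sqrt_eq_rpow, Real.rpow_def_of_pos (by linarith)]
      congr 1
      ring
    rw [hexp] at hx1
    have hsr : (s : ℝ) ≤ 3 * √x := by
      have h1 : ((Nat.sqrt (2 * x) : ℕ) : ℝ) ≤ √(2 * x) := by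
        apply Real.le_sqrt_of_sq_le
        have := Nat.sqrt_le' (2 * x)
        exact_mod_cast this
      have h2 : √(2 * x) ≤ 2 * √(x:ℝ) := by
        rw [Real.sqrt_le_left (by positivity), mul_pow, Real.sq_sqrt (by linarith)]
        linarith
      have h3 : 1 ≤ √(x:ℝ) := Real.one_le_sqrt.2 (by linarith)
      rw [hs]
      push_cast
      linarith
    have hkx : (x : ℝ) < (k + 1) * (2 * s) := by
      have h1 : x < (k + 1) * (2 * s) := by
        rw [hk, mul_comm]
        exact Nat.lt_mul_div_succ _ (by omega)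
      exact_mod_cast h1
    have hsq : √(x:ℝ) * √x = x := Real.mul_self_sqrt (by linarith)
    have hsx : 0 < √(x:ℝ) := Real.sqrt_pos.2 (by linarith)
    have h1 : (x : ℝ) < (k + 1) * (6 * √x) := by
      have h2 : ((k : ℝ) + 1) * (2 * s) ≤ (k + 1) * (6 * √x) := by
        apply mul_le_mul_of_nonneg_left _ (by positivity)
        linarith
      linarith
    have h2 : √(x:ℝ) < 6 * (k + 1) := by
      have h3 : √(x:ℝ) * √x < (6 * (k + 1)) * √x := by
        rw [hsq]
        linarith
      exact lt_of_mul_lt_mul_right h3 hsx.le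
    push_cast
    nlinarith
  have hsum : Summable fun x : ℕ => P.real (Free E x (2 * x)) := by
    have h2 : Summable fun X : ℕ => ((X : ℝ) ^ 2)⁻¹ := Real.summable_nat_pow_inv.2 (by norm_num)
    apply Summable.of_norm_bounded_eventually_nat h2
    filter_upwards [hbound] with X hX
    rwa [Real.norm_of_nonneg measureReal_nonneg]
  filter_upwards [Pool.Agent.H34.ND.bc_upper hsum] with ω hω
  filter_upwards [hω] with x hx
  by_contra hcon
  push Not at hcon
  exact hx fun n h1 h2 h3 => hcon n h1 h2 h3

/-- the general facts about models: the random set is infinite, the next elements are not far away,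
and there are gaps of all lengths -/
lemma basics (h : Model P E m) (hm : ∀ᶠ n : ℕ in atTop, m n ^ 2 ≤ n) :
    ∀ᵐ ω ∂P, {n | ω ∈ E n}.Infinite ∧ Next {n | ω ∈ E n} ∧ Unb {n | ω ∈ E n} := by
  have hlim : Tendsto (fun n => P.real (E n)) atTop (𝓝 0) :=
    Pool.Agent.H34.ND.tendsto_zero_of_density h.dens
  filter_upwards [h.infinite hm, dyadic h hm,
    Pool.Agent.H34.ND.gaps_unbounded h.range.meas hlim] with ω h1 h2 h3
  refine ⟨h1, next_of_dyadic h1 h2, unb_of_free h1 fun g => ?_⟩
  obtain ⟨n, hn⟩ := (h3 g).exists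
  exact ⟨n, fun k hk1 hk2 => hn k hk1 hk2⟩

end Pool.Agent.H41.SL
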