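import Pool.Agent.H41.LD.Main

/-! # Empty windows at a single scale -/

set_option autoImplicit false
set_option linter.unusedSectionVars false

namespace Pool.Agent.H41.SL

open MeasureTheory Filter Topology ProbabilityTheory
open Pool.Agent.H34.ND (Free)
open Pool.Agent.H41.LD

variable {Ω : Type*} [mΩ : MeasurableSpace Ω] {P : Measure Ω} {E : ℕ → Set Ω}
  [IsProbabilityMeasure P] {b : ℕ → ℕ} {φ : ℕ → Finset ℕ → ℝ}

lemma short_scale (hb : StrictMono b) (hs : Short b) {η : ℝ} (hη : 0 < η) :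
    ∀ᶠ X : ℕ in atTop, ∀ j, b j ≤ 2 * X → (b (j + 1) : ℝ) - b j ≤ η * Real.log X ^ 2 := by
  obtain ⟨j₁, hj₁⟩ := eventually_atTop.1 (hs (η / 4) (by positivity))
  have h2 : Tendsto (fun X : ℕ => η * Real.log X ^ 2) atTop atTop :=
    ((tendsto_pow_atTop (by norm_num)).comp tendsto_log_nat).const_mul_atTop hη
  filter_upwards [h2.eventually_ge_atTop (b j₁ : ℝ), ev_log_ge 1, eventually_gt_atTop 0] with
    X h3 h4 h5 j hj
  have hX0 : (0:ℝ) < X := by exact_mod_cast h5
  rcases Nat.lt_or_ge j j₁ with h6 | h6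
  · have h7 : b (j + 1) ≤ b j₁ := hb.monotone h6
    have h8 : (b (j + 1) : ℝ) ≤ b j₁ := by exact_mod_cast h7
    have h9 : (0:ℝ) ≤ b j := Nat.cast_nonneg _
    linarith
  · refine (hj₁ j h6).trans ?_
    have h7 : Real.log (b j) ≤ 2 * Real.log X := by
      rcases Nat.eq_zero_or_pos (b j) with h8 | h8
      · rw [h8]
        simp
        linarith
      · have h9 : (b j : ℝ) ≤ 2 * X := by exact_mod_cast hj
        have h10 : Real.log (b j) ≤ Real.log (2 * X) :=
          Real.log_le_log (by exact_mod_cast h8) h9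
        rw [Real.log_mul (by norm_num) hX0.ne'] at h10
        have := Real.log_two_lt_d9
        linarith
    have h8 : 0 ≤ Real.log (b j) := Real.log_natCast_nonneg _
    have h9 : Real.log (b j) ^ 2 ≤ (2 * Real.log X) ^ 2 := pow_le_pow_left₀ h8 h7 2
    nlinarith

/-- upper bound for the probabilities of empty windows at the scale `X` -/
lemma free_scale (h : Blocks P E b φ) (hs : Short b) {σ lam β : ℝ} (hσ : 0 < σ) (hβ : 0 < β)
    (hlt : β < lam * σ) : ∀ᶠ X : ℕ in atTop, ∀ S, 2 ≤ S →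
      (∀ j, S ≤ b j → b (j + 1) ≤ 2 * X → φ j (Finset.Ioc (b j) (b (j + 1))) ≤
        Real.exp (-(σ * ((b (j + 1) : ℝ) - b j) / Real.log (b j)))) →
      ∀ n, S ≤ n → n ≤ X →
        P.real (Free E n (n + ⌊lam * Real.log X ^ 2⌋₊)) ≤ Real.exp (-(β * Real.log X)) := by
  have hlam : 0 < lam := by
    by_contra hcon
    rw [not_lt] at hcon
    have := mul_nonpos_of_nonpos_of_nonneg hcon hσ.le
    linarith
  set η : ℝ := min (1 / 2) ((lam * σ - β) / (β + 5 * σ)) with hη
  have hη0 : 0 < η := lt_min (by norm_num) (div_pos (by linarith) (by linarith))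
  have hη1 : η ≤ 1 / 2 := min_le_left _ _
  have hη2 : β * (1 + η) ≤ σ * (lam - 5 * η) := by
    have h1 : η ≤ (lam * σ - β) / (β + 5 * σ) := min_le_right _ _
    rw [le_div_iff₀ (by linarith)] at h1
    nlinarith
  have hpos : 0 < (lam - 5 * η) := by
    by_contra hcon
    rw [not_lt] at hcon
    have h1 : σ * (lam - 5 * η) ≤ 0 := mul_nonpos_of_nonneg_of_nonpos hσ.le hcon
    nlinarith
  filter_upwards [short_scale h.mono hs hη0, ev_log_le (lam + 1) 2, ev_log_ge (1 / η),
    ev_log_ge 2, eventually_ge_atTop 10] with X hsX hX1 hX2 hX3 hX5 S hS2 hrate n hSn hnX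
  set L : ℝ := Real.log X with hL
  have hx0 : (10:ℝ) ≤ X := by exact_mod_cast hX5
  have hnX' : (n : ℝ) ≤ X := by exact_mod_cast hnX
  set H : ℕ := ⌊lam * L ^ 2⌋₊ with hH
  have hH1 : (H : ℝ) ≤ lam * L ^ 2 := Nat.floor_le (by positivity)
  have hH2 : lam * L ^ 2 < H + 1 := Nat.lt_floor_add_one _
  set i : ℕ := idx b n + 1 with hi
  set k : ℕ := idx b (n + H + 1) with hk
  obtain ⟨hi1, hi2⟩ := idx_spec h.mono h.zero (n := n) (by omega)
  obtain ⟨hk1, hk2⟩ := idx_spec h.mono h.zero (n := n + H + 1) (by omega)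
  rw [← hk] at hk1 hk2
  rw [← hi] at hi2
  have hL0 : 0 < L := by linarith
  have hw : ((n + H : ℕ) : ℝ) ≤ 2 * X := by
    push_cast
    nlinarith
  have hw' : n + H ≤ 2 * X := by exact_mod_cast hw
  have hlog2 : Real.log 2 < 1 := by
    have := Real.log_two_lt_d9
    linarith
  have hlogw : Real.log (2 * X) ≤ (1 + η) * L := by
    rw [Real.log_mul (by norm_num) (by linarith), ← hL]
    rw [div_le_iff₀ hη0] at hX2
    nlinarith
  have hlogb : ∀ j, i ≤ j → j ≤ k → 0 < Real.log (b j) ∧ Real.log (b j) ≤ (1 + η) * L := by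
    intro j hj hjk
    have h1 : b j ≤ 2 * X := by
      have := h.mono.monotone hjk
      omega
    have h2 : 2 ≤ b j := by
      have := h.mono.monotone hj
      omega
    have h3 : (b j : ℝ) ≤ 2 * X := by exact_mod_cast h1
    have h4 : (2:ℝ) ≤ b j := by exact_mod_cast h2
    exact ⟨Real.log_pos (by linarith), (Real.log_le_log (by linarith) h3).trans hlogw⟩
  have hbi : (b i : ℝ) ≤ n + η * L ^ 2 := by
    have h1 := hsX (idx b n) (by omega)
    have h2 : (b (idx b n) : ℝ) ≤ n := by exact_mod_cast hi1.le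
    rw [hi]
    linarith
  have hbk : (n : ℝ) + H + 1 - η * L ^ 2 ≤ b k := by
    have h1 := hsX k (by omega)
    have h2 : ((n + H + 1 : ℕ) : ℝ) ≤ b (k + 1) := by exact_mod_cast hk2
    push_cast at h2
    linarith
  have hdiff : (lam - 5 * η) * L ^ 2 ≤ (b k : ℝ) - b i := by
    have h1 : 0 ≤ η * L ^ 2 := by positivity
    nlinarith
  have hik : i ≤ k := by
    have h1 : (b i : ℝ) < b k := by
      have : 0 < (lam - 5 * η) * L ^ 2 := by positivity
      linarith
    have h2 : b i < b k := by exact_mod_cast h1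
    exact (h.mono.lt_iff_lt.1 h2).le
  have hfree : Free E n (n + H) ⊆ Free E (b i) (b k) := by
    apply Pool.Agent.H34.ND.free_mono hi2
    omega
  refine (measureReal_mono hfree).trans ?_
  rw [h.real_free hik]
  refine (prod_le_exp (b := b) (σ := σ) (W := (1 + η) * L) hik (fun j _ _ => h.nonneg j) ?_).trans ?_
  · intro j hj1 hj2
    have h3 := hlogb j hj1 hj2.le
    have h4 : S ≤ b j := by
      have := h.mono.monotone hj1
      omega
    have h5 : b (j + 1) ≤ 2 * X := by
      have : b (j + 1) ≤ b k := h.mono.monotone (by omega)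
      omega
    refine (hrate j h4 h5).trans (Real.exp_le_exp.2 (neg_le_neg ?_))
    apply div_le_div_of_nonneg_left _ h3.1 h3.2
    have h1 : (b j : ℝ) ≤ b (j + 1) := by exact_mod_cast h.mono.monotone (Nat.le_succ j)
    have h2 : 0 ≤ (b (j + 1) : ℝ) - b j := by linarith
    positivity
  · apply Real.exp_le_exp.2
    apply neg_le_neg
    rw [le_div_iff₀ (by positivity)]
    have h1 : σ * ((lam - 5 * η) * L ^ 2) ≤ σ * ((b k : ℝ) - b i) :=
      mul_le_mul_of_nonneg_left hdiff hσ.le
    have h2 : β * (1 + η) * L ^ 2 ≤ σ * (lam - 5 * η) * L ^ 2 :=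
      mul_le_mul_of_nonneg_right hη2 (by positivity)
    nlinarith

/-- lower bound for the conditional probabilities of empty windows at the scale `X` -/
lemma lower_scale (h : Blocks P E b φ) (hs : Short b) {σ lam α : ℝ} (hσ : 0 ≤ σ) (hlam : 0 ≤ lam)
    (hlt : lam * σ < α) : ∀ᶠ X : ℕ in atTop,
      (∀ j, X ≤ 8 * b j → b (j + 1) ≤ 3 * X →
        Real.exp (-(σ * ((b (j + 1) : ℝ) - b j) / Real.log (b j))) ≤
        φ j (Finset.Ioc (b j) (b (j + 1)))) →
      ∀ a : ℕ, (X : ℝ) / 2 ≤ a → a ≤ X → wlen 1 X ≤ a →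
        ∀ F, MeasurableSet[Past E (a - wlen 1 X)] F →
          Real.exp (-(α * Real.log X)) * P.real F ≤ P.real (F ∩ Free E a (a + wlen lam X)) := by
  obtain ⟨η, hη0, hη1, hη2⟩ : ∃ η : ℝ, 0 < η ∧ η ≤ 1 / 10 ∧
      σ * (lam + 8 * η) < α * (1 - η) := by
    have h1 : ContinuousAt (fun t : ℝ => σ * (lam + 8 * t) - α * (1 - t)) 0 := by fun_prop
    have h2 : ∀ᶠ t : ℝ in 𝓝 0, σ * (lam + 8 * t) - α * (1 - t) < 0 :=
      h1.eventually (gt_mem_nhds (by norm_num; linarith))
    have h3 : ∀ᶠ t : ℝ in 𝓝 0, t < 1 / 10 := gt_mem_nhds (by norm_num)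
    obtain ⟨t, ⟨ht1, ht2⟩, ht3⟩ := (((h2.and h3).filter_mono nhdsWithin_le_nhds).and
      (self_mem_nhdsWithin (a := (0:ℝ)) (s := Set.Ioi 0))).exists
    exact ⟨t, ht3, ht2.le, by linarith⟩
  filter_upwards [short_scale h.mono hs hη0, ev_log_le (4 * (lam + 2)) 2, ev_log_ge (4 / η),
    ev_log_ge 10, eventually_ge_atTop 100] with X hsX hX1 hX2 hX3 hX5 hrate a ha1 ha2 ha3 F hF
  set L : ℝ := Real.log X with hL
  have hL0 : 0 < L := by linarith
  have hX0 : (100:ℝ) ≤ X := by exact_mod_cast hX5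
  have ha2' : (a : ℝ) ≤ X := by exact_mod_cast ha2
  have ha0 : 0 < a := by
    have : (0:ℝ) < a := by linarith
    exact_mod_cast this
  set H : ℕ := wlen lam X with hH
  have hH1 : (H : ℝ) ≤ lam * L ^ 2 + 1 := by
    have h6 : (⌊lam * L ^ 2⌋₊ : ℝ) ≤ lam * L ^ 2 := Nat.floor_le (by positivity)
    have h7 : (H : ℝ) = ⌊lam * L ^ 2⌋₊ + 1 := by
      rw [hH]
      simp only [wlen]
      push_cast
      rfl
    rw [h7]
    linarith
  set g : ℕ := wlen 1 X with hg
  have hg1 : L ^ 2 < g := by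
    have h7 : (g : ℝ) = ⌊1 * L ^ 2⌋₊ + 1 := by
      rw [hg]
      simp only [wlen]
      push_cast
      rfl
    have := Nat.lt_floor_add_one (1 * L ^ 2)
    rw [h7]
    linarith
  set i : ℕ := idx b a with hi
  set k : ℕ := idx b (a + H) + 1 with hk
  have hH0 : 1 ≤ H := by
    rw [hH]
    simp only [wlen]
    omega
  obtain ⟨hi1, hi2⟩ := idx_spec h.mono h.zero ha0
  obtain ⟨hk1, hk2⟩ := idx_spec h.mono h.zero (n := a + H) (by omega)
  rw [← hi] at hi1 hi2
  rw [← hk] at hk2
  have hik' : i ≤ idx b (a + H) := le_idx h.mono (by omega)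
  have hik : i ≤ k := by omega
  have hlog2 : Real.log 2 < 1 := by
    have := Real.log_two_lt_d9
    linarith
  have hbL : L ^ 2 ≤ X / 8 := by nlinarith
  have hHX : ((a + H : ℕ) : ℝ) ≤ 2 * X := by
    push_cast
    nlinarith
  have hHX' : a + H ≤ 2 * X := by exact_mod_cast hHX
  have hbi : (a : ℝ) - η * L ^ 2 ≤ b i := by
    have h1 := hsX i (by omega)
    have h2 : (a : ℝ) ≤ b (i + 1) := by exact_mod_cast hi2
    linarith
  have hbk : (b k : ℝ) ≤ a + H + η * L ^ 2 := by
    have h1 := hsX (idx b (a + H)) (by omega)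
    have h2 : (b (idx b (a + H)) : ℝ) ≤ ((a + H : ℕ) : ℝ) := by exact_mod_cast hk1.le
    push_cast at h2
    rw [hk]
    linarith
  have hbi4 : (X : ℝ) / 4 ≤ b i := by
    have h2 : η * L ^ 2 ≤ X / 4 := by nlinarith
    linarith
  have hlogbi : (1 - η) * L ≤ Real.log (b i) := by
    have h2 : Real.log (X / 4) ≤ Real.log (b i) := Real.log_le_log (by positivity) hbi4
    rw [Real.log_div (by linarith) (by norm_num), ← hL] at h2
    have h3 : Real.log 4 < 2 := by
      rw [show (4:ℝ) = 2 ^ 2 by norm_num, Real.log_pow]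
      push_cast
      linarith
    rw [div_le_iff₀ hη0] at hX2
    nlinarith
  have hlogbi0 : 0 < (1 - η) * L := by
    have : 0 < 1 - η := by linarith
    positivity
  -- the probability
  have hFi : MeasurableSet[Past E (b i)] F := by
    refine past_mono ?_ F hF
    have h1 : (a : ℝ) < b i + g := by nlinarith
    have h2 : a < b i + g := by exact_mod_cast h1
    omega
  have hfree : F ∩ Free E (b i) (b k) ⊆ F ∩ Free E a (a + H) :=
    Set.inter_subset_inter_right _ (Pool.Agent.H34.ND.free_mono hi1.le hk2)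
  refine le_trans ?_ (measureReal_mono hfree)
  rw [indep_real (h.indep_ends i) hFi (free_future _ _), mul_comm]
  apply mul_le_mul_of_nonneg_left _ measureReal_nonneg
  rw [h.real_free hik]
  refine le_trans ?_ (exp_le_prod (b := b) (σ := σ) (W := (1 - η) * L) hik ?_)
  · apply Real.exp_le_exp.2
    apply neg_le_neg
    rw [div_le_iff₀ hlogbi0]
    have h1 : (b k : ℝ) - b i ≤ (lam + 8 * η) * L ^ 2 := by
      have h2 : 1 ≤ η * L ^ 2 := by
        rw [div_le_iff₀ hη0] at hX2
        nlinarith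
      nlinarith
    have h2 : σ * ((b k : ℝ) - b i) ≤ σ * ((lam + 8 * η) * L ^ 2) :=
      mul_le_mul_of_nonneg_left h1 hσ
    have h3 : σ * (lam + 8 * η) * L ^ 2 ≤ α * (1 - η) * L ^ 2 :=
      mul_le_mul_of_nonneg_right hη2.le (by positivity)
    nlinarith
  · intro j hj1 hj2
    have hbij : b i ≤ b j := h.mono.monotone hj1
    have h8 : X ≤ 8 * b j := by
      have h9 : (X : ℝ) ≤ 8 * b j := by
        have h10 : (b i : ℝ) ≤ b j := by exact_mod_cast hbij
        linarith
      exact_mod_cast h9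
    have h9 : b (j + 1) ≤ 3 * X := by
      have h10 : b (j + 1) ≤ b k := h.mono.monotone (by omega)
      have h11 : (b (j + 1) : ℝ) ≤ b k := by exact_mod_cast h10
      have h12 : (b (j + 1) : ℝ) ≤ 3 * X := by
        push_cast at hHX
        have h13 : η * L ^ 2 ≤ X := by nlinarith
        linarith
      exact_mod_cast h12
    refine le_trans (Real.exp_le_exp.2 (neg_le_neg ?_)) (hrate j h8 h9)
    apply div_le_div_of_nonneg_left _ hlogbi0
    · refine hlogbi.trans (Real.log_le_log ?_ ?_)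
      · linarith
      · exact_mod_cast hbij
    · have h1 : (b j : ℝ) ≤ b (j + 1) := by exact_mod_cast h.mono.monotone (Nat.le_succ j)
      have h2 : 0 ≤ (b (j + 1) : ℝ) - b j := by linarith
      positivity

/-- many independent windows at the scale `X` -/
lemma windows_scale (hE : ∀ n, MeasurableSet (E n)) {lam α : ℝ} (hlam : 0 ≤ lam) (hα : α < 1) :
    ∀ᶠ X : ℕ in atTop,
      (∀ a : ℕ, (X : ℝ) / 2 ≤ a → a ≤ X → wlen 1 X ≤ a →
        ∀ F, MeasurableSet[Past E (a - wlen 1 X)] F →
          Real.exp (-(α * Real.log X)) * P.real F ≤ P.real (F ∩ Free E a (a + wlen lam X))) →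
      P.real {ω | ∀ x : ℕ, X ≤ 2 * x → x ≤ X →
        ω ∉ Free E x (x + ⌊lam * Real.log X ^ 2⌋₊)} ≤ ((X : ℝ) ^ 2)⁻¹ := by
  set A : ℕ → ℕ := fun X => X / 2 + 1 + wlen 1 X with hA
  set D : ℕ → ℕ := fun X => wlen lam X + wlen 1 X with hD
  set K : ℕ → ℕ := fun X => (X - A X) / D X with hK
  set B : ℕ → Set Ω := fun X =>
    {ω | ∀ i < K X, ω ∉ Free E (A X + i * D X) (A X + i * D X + wlen lam X)} with hB
  have hD1 : ∀ X, 1 ≤ D X := fun X => by simp only [hD, wlen]; omega
  have hKle : ∀ X, A X ≤ X → ∀ i < K X, A X + i * D X + D X ≤ X := by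
    intro X hX i hi
    have h1 : (i + 1) * D X ≤ K X * D X := Nat.mul_le_mul_right _ hi
    have h2 : K X * D X ≤ X - A X := Nat.div_mul_le_self _ _
    have h3 : (i + 1) * D X = i * D X + D X := by ring
    omega
  have hnum : ∀ᶠ X : ℕ in atTop, A X ≤ X ∧ 2 * Real.log X ≤
      K X * Real.exp (-(α * Real.log X)) := by
    filter_upwards [ev_log_le (16 * (lam + 4)) 2, ev_log (sub_pos.2 hα) (16 * (lam + 4)) 3,
      ev_log_ge 2, eventually_ge_atTop 100] with X h1 h2 h3 h4
    have hX0 : (100:ℝ) ≤ X := by exact_mod_cast h4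
    have hL : 4 ≤ Real.log X ^ 2 := by nlinarith
    have hD2 : (D X : ℝ) ≤ (lam + 3) * Real.log X ^ 2 := by
      have h5 : (⌊lam * Real.log X ^ 2⌋₊ : ℝ) ≤ lam * Real.log X ^ 2 :=
        Nat.floor_le (by positivity)
      have h6 : (⌊1 * Real.log X ^ 2⌋₊ : ℝ) ≤ 1 * Real.log X ^ 2 :=
        Nat.floor_le (by positivity)
      simp only [hD, wlen]
      push_cast
      nlinarith
    have hA2 : (A X : ℝ) ≤ X / 2 + (lam + 4) * Real.log X ^ 2 := by
      have h6 : (⌊1 * Real.log X ^ 2⌋₊ : ℝ) ≤ 1 * Real.log X ^ 2 :=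
        Nat.floor_le (by positivity)
      have h7 : ((X / 2 : ℕ) : ℝ) ≤ X / 2 := Nat.cast_div_le
      simp only [hA, wlen]
      push_cast
      nlinarith
    have hAX : (A X : ℝ) ≤ X := by nlinarith
    have hAX' : A X ≤ X := by exact_mod_cast hAX
    refine ⟨hAX', ?_⟩
    have hDpos : (0:ℝ) < D X := by
      have := hD1 X
      exact_mod_cast this
    have hK2 : (X : ℝ) / (8 * D X) ≤ K X := by
      have h8 : X - A X < (K X + 1) * D X := by
        have := Nat.lt_div_mul_add (a := X - A X) (b := D X) (hD1 X)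
        have h9 : (K X + 1) * D X = (X - A X) / D X * D X + D X := by
          simp only [hK]
          ring
        rw [h9]
        exact this
      have h9 : (X : ℝ) - A X < (K X + 1) * D X := by
        have : ((X - A X : ℕ) : ℝ) < ((K X + 1) * D X : ℕ) := by exact_mod_cast h8
        rw [Nat.cast_sub hAX'] at this
        push_cast at this
        exact this
      rw [div_le_iff₀ (by positivity)]
      nlinarith
    have hexp : Real.exp (-(α * Real.log X)) * X = Real.exp ((1 - α) * Real.log X) := by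
      nth_rewrite 2 [← exp_log_nat (show 0 < X by omega)]
      rw [← Real.exp_add]
      congr 1
      ring
    have h10 : 2 * Real.log X ≤ (X : ℝ) / (8 * D X) * Real.exp (-(α * Real.log X)) := by
      have h11 : (X : ℝ) / (8 * D X) * Real.exp (-(α * Real.log X)) =
          Real.exp ((1 - α) * Real.log X) / (8 * D X) := by
        rw [← hexp]
        ring
      rw [h11, le_div_iff₀ (by positivity)]
      refine le_trans ?_ h2
      have h12 : 2 * Real.log X * (8 * D X) ≤ 2 * Real.log X * (8 * ((lam + 3) * Real.log X ^ 2)) := by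
        apply mul_le_mul_of_nonneg_left _ (by linarith)
        linarith
      have h13 : 0 ≤ Real.log X ^ 3 := by positivity
      nlinarith
    exact h10.trans (mul_le_mul_of_nonneg_right hK2 (Real.exp_pos _).le)
  filter_upwards [hnum, ev_log_ge 1, eventually_gt_atTop 0] with X h2 h3 h4 h1
  have hsub : {ω | ∀ x : ℕ, X ≤ 2 * x → x ≤ X → ω ∉ Free E x (x + ⌊lam * Real.log X ^ 2⌋₊)} ⊆
      B X := by
    intro ω hω i hi hfree
    have h7 := hKle X h2.1 i hi
    refine hω (A X + i * D X) ?_ (by omega) ?_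
    · simp only [hA]
      omega
    · refine Pool.Agent.H34.ND.free_mono le_rfl ?_ hfree
      simp only [wlen]
      omega
  refine (measureReal_mono hsub).trans ?_
  have hq1 : Real.exp (-(α * Real.log X)) ≤ 1 := by
    have hAX := h2.1
    have h9 : X ≤ 2 * A X := by simp only [hA]; omega
    have h10 : (X : ℝ) ≤ 2 * ((A X : ℕ) : ℝ) := by exact_mod_cast h9
    have h5 := h1 (A X) (by linarith) hAX (by simp only [hA]; omega) Set.univ MeasurableSet.univ
    rw [Set.univ_inter, probReal_univ, mul_one] at h5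
    have h6 : P.real (Free E (A X) (A X + wlen lam X)) ≤ 1 := measureReal_le_one
    linarith
  have h5 := windows (P := P) hE (A := A X) (g := wlen 1 X) (H := wlen lam X) (K := K X)
    (q := Real.exp (-(α * Real.log X))) (by simp only [hA]; omega) hq1 ?_
  · refine h5.trans ((one_sub_pow_le_exp hq1 _).trans ?_)
    have h6 : ((X : ℝ) ^ 2)⁻¹ = Real.exp (-(2 * Real.log X)) := by
      rw [Real.exp_neg]
      congr 1
      rw [mul_comm, Real.exp_mul, exp_log_nat h4]
      norm_num
    rw [h6]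
    apply Real.exp_le_exp.2
    linarith [h2.2]
  · intro i hi F hF
    have h7 := hKle X h2.1 i hi
    have h8 : wlen lam X + wlen 1 X = D X := rfl
    rw [h8] at hF ⊢
    apply h1 _ _ _ _ F hF
    · have h9 : X ≤ 2 * (A X + i * D X) := by simp only [hA]; omega
      have h10 : (X : ℝ) ≤ 2 * ((A X + i * D X : ℕ) : ℝ) := by exact_mod_cast h9
      linarith
    · omega
    · simp only [hA]
      omega

end Pool.Agent.H41.SL
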