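import Pool.Agent.H41.SL.Rec
import Pool.Agent.H41.SL.Scale
import Pool.Agent.H41.SL.Next

/-! # Mixtures of two block models on towers of exponentials -/

set_option autoImplicit false
set_option linter.unusedSectionVars false

namespace Pool.Agent.H41.SL

open MeasureTheory Filter Topology ProbabilityTheory
open Pool.Agent.H34.ND (Free ratio)
open Pool.Agent.H41.LD

/-- the tower of exponentials -/
def tw : ℕ → ℕ
  | 0 => 0
  | k + 1 => 2 ^ tw k

lemma tw_mono : StrictMono tw := strictMono_nat_of_lt_succ fun _ => Nat.lt_two_pow_self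

lemma tw_tendsto : Tendsto tw atTop atTop := tw_mono.tendsto_atTop

/-- the type of the range `(tw i, tw (i + 1)]` which contains `b` -/
def ty (b : ℕ) : Prop := Even (idx tw b)

lemma ty_even {i b : ℕ} (h1 : tw (2 * i) < b) (h2 : b ≤ tw (2 * i + 1)) : ty b := by
  unfold ty
  rw [idx_unique tw_mono rfl h1 h2]
  exact even_two_mul i

lemma ty_odd {i b : ℕ} (h1 : tw (2 * i + 1) < b) (h2 : b ≤ tw (2 * i + 2)) : ¬ ty b := by
  unfold ty
  rw [idx_unique tw_mono rfl h1 h2, Nat.not_even_iff_odd]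
  exact odd_two_mul_add_one i

lemma pow_large : ∀ T : ℕ, 10 ≤ T → 24 * (T + 1) + 3 ≤ 2 ^ T := by
  intro T hT
  induction T, hT using Nat.le_induction with
  | base => norm_num
  | succ T hT ih =>
    rw [pow_succ]
    omega

variable {Ω : Type*} [mΩ : MeasurableSpace Ω] {P : Measure Ω} {E : ℕ → Set Ω}
  [IsProbabilityMeasure P]

section

open Classical

variable {m len₁ len₂ : ℕ → ℕ} {φ₁ φ₂ : ℕ → Finset ℕ → ℝ}

/-- the lengths of the blocks of the mixture -/
noncomputable def mlen (len₁ len₂ : ℕ → ℕ) (b : ℕ) : ℕ := if ty b then len₁ b else len₂ b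

/-- the avoidance functions of the mixture -/
noncomputable def mphi (φ₁ φ₂ : ℕ → Finset ℕ → ℝ) (b : ℕ) : Finset ℕ → ℝ :=
  if ty b then φ₁ b else φ₂ b

lemma mix_recipe (R₁ : Recipe m len₁ φ₁) (R₂ : Recipe m len₂ φ₂) :
    Recipe m (mlen len₁ len₂) (mphi φ₁ φ₂) := R₁.mix R₂ ty

/-- gaps at infinitely many scales -/
lemma gaps_io (R₁ : Recipe m len₁ φ₁) (R₂ : Recipe m len₂ φ₂)
    (hB : Blocks P E (blk (mlen len₁ len₂)) (fun j => mphi φ₁ φ₂ (blk (mlen len₁ len₂) j)))
    {σ lam : ℝ} (hσ : 0 ≤ σ) (hlam : 0 ≤ lam) (hlt : lam * σ < 1) (h1 : RLe len₁ φ₁ σ) :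
    ∀ᵐ ω ∂P, GapsIO {n | ω ∈ E n} lam := by
  have R := mix_recipe R₁ R₂
  have hs := short_blk R.pos R.short
  obtain ⟨α, hα1, hα2⟩ := exists_between hlt
  obtain ⟨b₀, hb₀⟩ := eventually_atTop.1 h1
  obtain ⟨X₁, hX₁⟩ := eventually_atTop.1 (lower_scale hB hs hσ hlam hα1)
  obtain ⟨X₂, hX₂⟩ := eventually_atTop.1 (windows_scale (P := P) hB.meas hlam hα2)
  set X : ℕ → ℕ := fun i => 2 ^ tw (2 * i) / 3 with hX
  have hXge : ∀ᶠ i : ℕ in atTop, 8 * (tw (2 * i) + 1) ≤ X i := by
    filter_upwards [eventually_ge_atTop 10] with i hi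
    have h2 : 10 ≤ tw (2 * i) := by
      have := tw_mono.id_le (2 * i)
      simp only [id] at this
      omega
    have h3 := pow_large _ h2
    simp only [hX]
    omega
  have hXi : ∀ᶠ i : ℕ in atTop, i + 1 ≤ X i := by
    filter_upwards [hXge] with i hi
    have := tw_mono.id_le (2 * i)
    simp only [id] at this
    omega
  have hXtend : Tendsto X atTop atTop := by
    apply tendsto_atTop_mono' atTop (f₁ := fun i => i) _ tendsto_id
    filter_upwards [hXi] with i hi
    omega
  set F : ℕ → Set Ω := fun i => {ω | ∀ x : ℕ, X i ≤ 2 * x → x ≤ X i →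
    ω ∉ Free E x (x + ⌊lam * Real.log (X i) ^ 2⌋₊)} with hF
  have hprob : ∀ᶠ i : ℕ in atTop, P.real (F i) ≤ 1 / ((i : ℝ) + 1) ^ 2 := by
    filter_upwards [hXge, hXi, hXtend.eventually_ge_atTop X₁, hXtend.eventually_ge_atTop X₂,
      hXtend.eventually_ge_atTop (8 * b₀)] with i hi1 hi2 hi3 hi4 hi5
    refine (hX₂ (X i) hi4 (hX₁ (X i) hi3 ?_)).trans ?_
    · intro j hj1 hj2
      set b := blk (mlen len₁ len₂) j with hb
      have hb1 : tw (2 * i) < b := by omega
      have hb2 : b ≤ tw (2 * i + 1) := by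
        have h4 : b < blk (mlen len₁ len₂) (j + 1) := hB.mono (Nat.lt_succ_self j)
        have h5 : 3 * X i ≤ tw (2 * i + 1) := by
          simp only [hX]
          have : tw (2 * i + 1) = 2 ^ tw (2 * i) := rfl
          rw [this]
          exact Nat.mul_div_le _ _
        omega
      have hty := ty_even hb1 hb2
      have h6 := hb₀ b (by omega)
      have h7 : mlen len₁ len₂ b = len₁ b := if_pos hty
      have h8 : mphi φ₁ φ₂ b = φ₁ b := if_pos hty
      have h9 : blk (mlen len₁ len₂) (j + 1) = b + len₁ b := by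
        rw [← h7]
        rfl
      show _ ≤ mphi φ₁ φ₂ b _
      rw [h8, h9]
      push_cast
      rw [add_sub_cancel_left]
      exact h6
    · rw [one_div]
      apply inv_anti₀ (by positivity)
      have h4 : ((i : ℝ) + 1) ≤ X i := by exact_mod_cast hi2
      gcongr
  have hsum : Summable fun i : ℕ => P.real (F i) := by
    have h2 : Summable fun i : ℕ => 1 / ((i : ℝ) + 1) ^ 2 := by
      have h3 := (summable_nat_add_iff 1).2 (Real.summable_one_div_nat_pow.2 (show 1 < 2 by norm_num))
      simpa using h3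
    apply Summable.of_norm_bounded_eventually_nat h2
    filter_upwards [hprob] with i hi
    rwa [Real.norm_of_nonneg measureReal_nonneg]
  filter_upwards [Pool.Agent.H34.ND.bc_upper hsum] with ω hω
  have h3 : ∀ᶠ i : ℕ in atTop, ∃ x : ℕ, i ≤ 2 * x ∧ ∀ k, x < k → k ≤ x + ⌊lam * Real.log x ^ 2⌋₊ →
      k ∉ {n | ω ∈ E n} := by
    filter_upwards [hω, hXi] with i hi1 hi2
    simp only [hF, Set.mem_ofPred_eq, not_forall, not_not] at hi1
    obtain ⟨x, hx1, hx2, hx3⟩ := hi1
    refine ⟨x, by omega, fun k hk1 hk2 => hx3 k hk1 (hk2.trans ?_)⟩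
    have hx0 : 0 < x := by omega
    have h4 : Real.log x ≤ Real.log (X i) :=
      Real.log_le_log (by exact_mod_cast hx0) (by exact_mod_cast hx2)
    have h5 : lam * Real.log x ^ 2 ≤ lam * Real.log (X i) ^ 2 := by
      have := pow_le_pow_left₀ (Real.log_natCast_nonneg x) h4 2
      exact mul_le_mul_of_nonneg_left this hlam
    have := Nat.floor_mono h5
    omega
  unfold GapsIO
  rw [frequently_atTop]
  intro N
  obtain ⟨i, ⟨x, hx1, hx2⟩, hi⟩ := (h3.and (eventually_ge_atTop (2 * N))).exists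
  exact ⟨x, by omega, hx2⟩

/-- no long gaps at infinitely many scales -/
lemma hit_io (R₁ : Recipe m len₁ φ₁) (R₂ : Recipe m len₂ φ₂)
    (hB : Blocks P E (blk (mlen len₁ len₂)) (fun j => mphi φ₁ φ₂ (blk (mlen len₁ len₂) j)))
    {σ lam : ℝ} (hσ : 0 < σ) (hlt : 1 < lam * σ) (h1 : RGe len₂ φ₂ σ) :
    ∀ᵐ ω ∂P, HitIO {n | ω ∈ E n} lam := by
  have R := mix_recipe R₁ R₂
  have hs := short_blk R.pos R.short
  have hlam : 0 < lam := by
    by_contra hcon
    rw [not_lt] at hcon
    have := mul_nonpos_of_nonpos_of_nonneg hcon hσ.le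
    linarith
  -- the smaller constant
  obtain ⟨lam', hlam1, hlam0, hlt'⟩ : ∃ lam' : ℝ, lam' < lam ∧ 0 < lam' ∧ 1 < lam' * σ := by
    have h2 : ContinuousAt (fun t : ℝ => t * σ) lam := by fun_prop
    have h3 : ∀ᶠ t : ℝ in 𝓝 lam, 1 < t * σ ∧ 0 < t :=
      (h2.eventually (lt_mem_nhds hlt)).and (lt_mem_nhds hlam)
    obtain ⟨t, ⟨ht1, ht2⟩, ht3⟩ := ((h3.filter_mono nhdsWithin_le_nhds).and
      (self_mem_nhdsWithin (a := lam) (s := Set.Iio lam))).exists
    exact ⟨t, ht3, ht2, ht1⟩
  obtain ⟨β, hβ1, hβ2⟩ := exists_between hlt'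
  obtain ⟨b₀, hb₀⟩ := eventually_atTop.1 h1
  obtain ⟨X₁, hX₁⟩ := eventually_atTop.1 (free_scale hB hs hσ (by linarith : (0:ℝ) < β) hβ2)
  set T : ℕ → ℕ := fun i => tw (2 * i + 1) with hT
  set X : ℕ → ℕ := fun i => 2 ^ (T i - 1) with hX
  have hTi : ∀ i, i + 1 ≤ T i := by
    intro i
    have := tw_mono.id_le (2 * i + 1)
    simp only [id, hT] at this ⊢
    omega
  have hXT : ∀ i, 2 * X i = tw (2 * i + 2) := by
    intro i
    have h2 : tw (2 * i + 2) = 2 ^ T i := rfl
    rw [h2]
    simp only [hX]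
    rw [← pow_succ']
    congr 1
    have := hTi i
    omega
  have hXi : ∀ i, 2 ^ i ≤ X i := by
    intro i
    apply Nat.pow_le_pow_right (by norm_num)
    have := hTi i
    omega
  have hXtend : Tendsto X atTop atTop := by
    apply tendsto_atTop_mono (f := fun i => i) _ tendsto_id
    intro i
    exact (Nat.lt_two_pow_self).le.trans (hXi i)
  have hTtend : Tendsto T atTop atTop := by
    apply tendsto_atTop_mono (f := fun i => i) _ tendsto_id
    intro i
    have := hTi i
    show i ≤ T i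
    omega
  set F : ℕ → Set Ω := fun i => ⋃ n ∈ Finset.Icc (T i + 1) (X i),
    Free E n (n + ⌊lam' * Real.log (X i) ^ 2⌋₊) with hF
  have hprob : ∀ᶠ i : ℕ in atTop, P.real (F i) ≤ (Real.exp (-((β - 1) * Real.log 2))) ^ i := by
    filter_upwards [hXtend.eventually_ge_atTop X₁, hTtend.eventually_ge_atTop b₀] with i hi1 hi2
    have hX0 : 0 < X i := by simp only [hX]; positivity
    have hkey := hX₁ (X i) hi1 (T i + 1) (by have := hTi i; omega) ?_
    · calc P.real (F i) ≤ ∑ n ∈ Finset.Icc (T i + 1) (X i),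
            P.real (Free E n (n + ⌊lam' * Real.log (X i) ^ 2⌋₊)) :=
            measureReal_biUnion_finset_le _ _
        _ ≤ ∑ n ∈ Finset.Icc (T i + 1) (X i), Real.exp (-(β * Real.log (X i))) := by
            refine Finset.sum_le_sum fun n hn => ?_
            rw [Finset.mem_Icc] at hn
            exact hkey n hn.1 hn.2
        _ ≤ X i * Real.exp (-(β * Real.log (X i))) := by
            rw [Finset.sum_const, nsmul_eq_mul]
            apply mul_le_mul_of_nonneg_right _ (Real.exp_pos _).le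
            rw [Nat.card_Icc]
            have : X i + 1 - (T i + 1) ≤ X i := by omega
            exact_mod_cast this
        _ = Real.exp (-((β - 1) * Real.log (X i))) := by
            nth_rewrite 1 [← exp_log_nat hX0]
            rw [← Real.exp_add]
            congr 1
            ring
        _ ≤ (Real.exp (-((β - 1) * Real.log 2))) ^ i := by
            rw [← Real.exp_nat_mul]
            apply Real.exp_le_exp.2
            have h2 : (i : ℝ) * Real.log 2 ≤ Real.log (X i) := by
              rw [← Real.log_pow]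
              apply Real.log_le_log (by positivity)
              exact_mod_cast hXi i
            have h3 : (β - 1) * ((i : ℝ) * Real.log 2) ≤ (β - 1) * Real.log (X i) :=
              mul_le_mul_of_nonneg_left h2 (by linarith)
            nlinarith
    · intro j hj1 hj2
      set b := blk (mlen len₁ len₂) j with hb
      have hb1 : tw (2 * i + 1) < b := by
        have : tw (2 * i + 1) = T i := rfl
        omega
      have hb2 : b ≤ tw (2 * i + 2) := by
        have h4 : b < blk (mlen len₁ len₂) (j + 1) := hB.mono (Nat.lt_succ_self j)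
        have h5 := hXT i
        omega
      have hty := ty_odd hb1 hb2
      have h6 := hb₀ b (by omega)
      have h7 : mlen len₁ len₂ b = len₂ b := if_neg hty
      have h8 : mphi φ₁ φ₂ b = φ₂ b := if_neg hty
      have h9 : blk (mlen len₁ len₂) (j + 1) = b + len₂ b := by
        rw [← h7]
        rfl
      show mphi φ₁ φ₂ b _ ≤ _
      rw [h8, h9]
      push_cast
      rw [add_sub_cancel_left]
      exact h6
  have hsum : Summable fun i : ℕ => P.real (F i) := by
    have h2 : Summable fun i : ℕ => (Real.exp (-((β - 1) * Real.log 2))) ^ i := by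
      apply summable_geometric_of_lt_one (Real.exp_pos _).le
      rw [Real.exp_lt_one_iff]
      have := mul_pos (show (0:ℝ) < β - 1 by linarith) (Real.log_pos (show (1:ℝ) < 2 by norm_num))
      linarith
    apply Summable.of_norm_bounded_eventually_nat h2
    filter_upwards [hprob] with i hi
    rwa [Real.norm_of_nonneg measureReal_nonneg]
  -- the comparison of `T` and `log X`
  set δ : ℝ := lam - lam' with hδ
  have hδ0 : 0 < δ := by rw [hδ]; linarith
  have hcmp : ∀ᶠ i : ℕ in atTop, T i + 1 + ⌊lam' * Real.log (X i) ^ 2⌋₊ ≤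
      ⌊lam * Real.log (X i) ^ 2⌋₊ := by
    filter_upwards [hXtend.eventually (ev_log_ge (4 / δ)), hXtend.eventually (ev_log_ge 4)] with
      i hi1 hi2
    set L : ℝ := Real.log (X i) with hL
    have h2 : (T i : ℝ) ≤ 2 * L + 1 := by
      have h3 : L = (T i - 1 : ℕ) * Real.log 2 := by
        rw [hL]
        simp only [hX]
        push_cast
        rw [Real.log_pow]
      have h4 : ((T i - 1 : ℕ) : ℝ) = T i - 1 := by
        rw [Nat.cast_sub (by have := hTi i; omega)]
        simp
      rw [h4] at h3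
      have h5 := Real.log_two_gt_d9
      have h6 : (0:ℝ) ≤ (T i : ℝ) - 1 := by
        rw [← h4]
        positivity
      nlinarith
    apply Nat.le_floor
    have h3 : (⌊lam' * L ^ 2⌋₊ : ℝ) ≤ lam' * L ^ 2 := Nat.floor_le (by positivity)
    rw [div_le_iff₀ hδ0] at hi1
    have h4 : 4 * L ≤ δ * L ^ 2 := by nlinarith
    push_cast
    have h5 : lam = lam' + δ := by rw [hδ]; ring
    rw [h5]
    nlinarith
  filter_upwards [Pool.Agent.H34.ND.bc_upper hsum] with ω hω
  apply hXtend.frequently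
  apply Eventually.frequently
  filter_upwards [hω, hcmp, hXtend.eventually (ev_log_ge 4)] with i hi1 hi2 hi4 n hn
  have hget : ∀ n, T i + 1 ≤ n → n ≤ X i → ∃ k, n < k ∧
      k ≤ n + ⌊lam' * Real.log (X i) ^ 2⌋₊ ∧ k ∈ {n | ω ∈ E n} := by
    intro n hn1 hn2
    by_contra hcon
    push Not at hcon
    apply hi1
    simp only [hF]
    rw [Set.mem_iUnion₂]
    exact ⟨n, Finset.mem_Icc.2 ⟨hn1, hn2⟩, fun k h2 h3 h4 => hcon k h2 h3 h4⟩
  rcases Nat.lt_or_ge n (T i + 1) with h2 | h2
  · have hTX : T i + 1 ≤ X i := by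
      -- `X = 2 ^ (T - 1)` is at least `T + 1` for large `T`
      have h3 : (T i : ℝ) + 1 ≤ X i := by
        have h4 : Real.log (X i) = (T i - 1 : ℕ) * Real.log 2 := by
          simp only [hX]
          push_cast
          rw [Real.log_pow]
        have h5 : ((T i - 1 : ℕ) : ℝ) = T i - 1 := by
          rw [Nat.cast_sub (by have := hTi i; omega)]
          simp
        have h6 : (4:ℝ) < (T i : ℝ) - 1 := by
          rw [h5] at h4
          have h7 := Real.log_two_lt_d9
          have h8 := Real.log_two_gt_d9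
          by_contra hcon
          rw [not_lt] at hcon
          nlinarith
        have h7 : 6 ≤ T i := by
          have : (5:ℝ) < T i := by linarith
          have : 5 < T i := by exact_mod_cast this
          omega
        have h8 : ∀ t : ℕ, 5 ≤ t → t + 2 ≤ 2 ^ t := by
          intro t ht
          induction t, ht using Nat.le_induction with
          | base => norm_num
          | succ t ht ih =>
            rw [pow_succ]
            omega
        have h9 := h8 (T i - 1) (by omega)
        have h10 : T i + 1 ≤ X i := by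
          simp only [hX]
          omega
        exact_mod_cast h10
      exact_mod_cast h3
    obtain ⟨k, hk1, hk2, hk3⟩ := hget (T i + 1) le_rfl hTX
    exact ⟨k, by omega, by omega, hk3⟩
  · obtain ⟨k, hk1, hk2, hk3⟩ := hget n h2 hn
    exact ⟨k, hk1, by omega, hk3⟩

/-- **The law of the mixture.** -/
theorem law_of_recipes (R₁ : Recipe m len₁ φ₁) (R₂ : Recipe m len₂ φ₂) {a b : EReal}
    (ha : 0 ≤ a) (hab : a ≤ b) (H₁ : HasRate len₁ φ₁ a) (H₂ : HasRate len₂ φ₂ b)
    (hm : ∀ᶠ n : ℕ in atTop, m n ^ 2 ≤ n) : IsLaw m a b := by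
  have R := mix_recipe R₁ R₂
  obtain ⟨Ω, mΩ, P, hP, E, hB, hM⟩ := R.exists_model
  have hs := short_blk R.pos R.short
  have htend := blk_tendsto R.pos
  have hb0 : 0 ≤ b := ha.trans hab
  have hmix_ge : ∀ s : ℝ, 0 < s → (s : EReal) < a → ∀ᶠ j : ℕ in atTop,
      mphi φ₁ φ₂ (blk (mlen len₁ len₂) j) (Finset.Ioc (blk (mlen len₁ len₂) j)
        (blk (mlen len₁ len₂) (j + 1))) ≤ Real.exp (-(s ^ 2 *
          ((blk (mlen len₁ len₂) (j + 1) : ℝ) - blk (mlen len₁ len₂) j) /
            Real.log (blk (mlen len₁ len₂) j))) := by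
    intro s hs0 hs1
    have h1 := H₁.ge s hs0 hs1
    have h2 := H₂.ge s hs0 (lt_of_lt_of_le hs1 hab)
    filter_upwards [htend.eventually (h1.and h2)] with j hj
    rw [blk_diff]
    have h3 : blk (mlen len₁ len₂) (j + 1) = blk (mlen len₁ len₂) j +
      mlen len₁ len₂ (blk (mlen len₁ len₂) j) := rfl
    rw [h3]
    unfold mlen mphi at *
    split_ifs
    exacts [hj.1, hj.2]
  have hmix_le : ∀ s : ℝ, 0 < s → b < (s : EReal) → ∀ᶠ j : ℕ in atTop,
      Real.exp (-(s ^ 2 *
          ((blk (mlen len₁ len₂) (j + 1) : ℝ) - blk (mlen len₁ len₂) j) /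
            Real.log (blk (mlen len₁ len₂) j))) ≤
      mphi φ₁ φ₂ (blk (mlen len₁ len₂) j) (Finset.Ioc (blk (mlen len₁ len₂) j)
        (blk (mlen len₁ len₂) (j + 1))) := by
    intro s hs0 hs1
    have h1 := H₁.le s hs0 (lt_of_le_of_lt hab hs1)
    have h2 := H₂.le s hs0 hs1
    filter_upwards [htend.eventually (h1.and h2)] with j hj
    rw [blk_diff]
    have h3 : blk (mlen len₁ len₂) (j + 1) = blk (mlen len₁ len₂) j +
      mlen len₁ len₂ (blk (mlen len₁ len₂) j) := rfl
    rw [h3]
    unfold mlen mphi at *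
    split_ifs
    exacts [hj.1, hj.2]
  refine ⟨Ω, mΩ, P, hP, E, hM, ?_⟩
  have f1 : ∀ᵐ ω ∂P, ∀ r : ℚ, (0:ℝ) < r → ((r : ℝ) : EReal) < a →
      LD.Upper {n | ω ∈ E n} (1 / (r:ℝ) ^ 2) := by
    rw [ae_all_iff]
    intro r
    by_cases h : (0:ℝ) < r ∧ ((r : ℝ) : EReal) < a
    · obtain ⟨s, hs1, hs2⟩ := EReal.lt_iff_exists_real_btwn.1 h.2
      have hs1' : (r:ℝ) < s := by exact_mod_cast hs1
      have hr0 := h.1
      have hs0 : 0 < s := by linarith
      have := hB.upper hs (σ := s ^ 2) (lam := 1 / (r:ℝ) ^ 2) (by positivity) (by positivity) (by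
        rw [one_div, inv_mul_eq_div, lt_div_iff₀ (by positivity), one_mul]
        exact pow_lt_pow_left₀ hs1' h.1.le (by norm_num)) (hmix_ge s hs0 hs2)
      filter_upwards [this] with ω hω _ _
      exact hω
    · exact Eventually.of_forall fun ω h' h'' => absurd ⟨h', h''⟩ h
  have f2 : ∀ᵐ ω ∂P, ∀ r : ℚ, (0:ℝ) < r → b < ((r : ℝ) : EReal) →
      GapsAll {n | ω ∈ E n} (1 / (r:ℝ) ^ 2) := by
    rw [ae_all_iff]
    intro r
    by_cases h : (0:ℝ) < r ∧ b < ((r : ℝ) : EReal)
    · obtain ⟨s, hs1, hs2⟩ := EReal.lt_iff_exists_real_btwn.1 h.2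
      have hs2' : s < r := by exact_mod_cast hs2
      have hr0 := h.1
      have hs0 : 0 < s := by
        have : (0:EReal) < s := lt_of_le_of_lt hb0 hs1
        exact_mod_cast this
      have := hB.lower hs (σ := s ^ 2) (lam := 1 / (r:ℝ) ^ 2) (by positivity) (by positivity) (by
        rw [one_div, inv_mul_eq_div, div_lt_iff₀ (by positivity), one_mul]
        exact pow_lt_pow_left₀ hs2' hs0.le (by norm_num)) (hmix_le s hs0 hs1)
      filter_upwards [this] with ω hω _ _
      exact gapsAll_of_hasGaps (by positivity) hω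
    · exact Eventually.of_forall fun ω h' h'' => absurd ⟨h', h''⟩ h
  have f3 : ∀ᵐ ω ∂P, ∀ r : ℚ, (0:ℝ) < r → a < ((r : ℝ) : EReal) →
      GapsIO {n | ω ∈ E n} (1 / (r:ℝ) ^ 2) := by
    rw [ae_all_iff]
    intro r
    by_cases h : (0:ℝ) < r ∧ a < ((r : ℝ) : EReal)
    · obtain ⟨s, hs1, hs2⟩ := EReal.lt_iff_exists_real_btwn.1 h.2
      have hs2' : s < r := by exact_mod_cast hs2
      have hr0 := h.1
      have hs0 : 0 < s := by
        have : (0:EReal) < s := lt_of_le_of_lt ha hs1
        exact_mod_cast this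
      have := gaps_io R₁ R₂ hB (σ := s ^ 2) (lam := 1 / (r:ℝ) ^ 2) (by positivity)
        (by positivity) (by
        rw [one_div, inv_mul_eq_div, div_lt_iff₀ (by positivity), one_mul]
        exact pow_lt_pow_left₀ hs2' hs0.le (by norm_num)) (H₁.le s hs0 hs1)
      filter_upwards [this] with ω hω _ _
      exact hω
    · exact Eventually.of_forall fun ω h' h'' => absurd ⟨h', h''⟩ h
  have f4 : ∀ᵐ ω ∂P, ∀ r : ℚ, (0:ℝ) < r → ((r : ℝ) : EReal) < b →
      HitIO {n | ω ∈ E n} (1 / (r:ℝ) ^ 2) := by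
    rw [ae_all_iff]
    intro r
    by_cases h : (0:ℝ) < r ∧ ((r : ℝ) : EReal) < b
    · obtain ⟨s, hs1, hs2⟩ := EReal.lt_iff_exists_real_btwn.1 h.2
      have hs1' : (r:ℝ) < s := by exact_mod_cast hs1
      have hr0 := h.1
      have hs0 : 0 < s := by linarith
      have := hit_io R₁ R₂ hB (σ := s ^ 2) (lam := 1 / (r:ℝ) ^ 2) (by positivity) (by
        rw [one_div, inv_mul_eq_div, lt_div_iff₀ (by positivity), one_mul]
        exact pow_lt_pow_left₀ hs1' h.1.le (by norm_num)) (H₂.ge s hs0 hs2)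
      filter_upwards [this] with ω hω _ _
      exact hω
    · exact Eventually.of_forall fun ω h' h'' => absurd ⟨h', h''⟩ h
  filter_upwards [basics hM hm, f1, f2, f3, f4] with ω h0 h1 h2 h3 h4
  obtain ⟨hinf, hnext, hunb⟩ := h0
  exact ⟨hinf, hunb, le_antisymm (liminf_ratio_le hinf hnext ha h3) (le_liminf_ratio hinf hunb h1),
    le_antisymm (limsup_ratio_le hinf hnext hb0 h2) (le_limsup_ratio hinf hunb h4)⟩

end

end Pool.Agent.H41.SL
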