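import Pool.Agent.H41.SL.Main

/-! # The lower and upper limits are almost surely constant -/

set_option autoImplicit false
set_option linter.unusedSectionVars false

namespace Pool.Agent.H41.SL

open MeasureTheory Filter Topology ProbabilityTheory
open Pool.Agent.H34.ND (Free ratio)
open Pool.Agent.H41.LD

/-- the tail version of `GapsAll` -/
def GapsTail (A : Set ℕ) (lam : ℝ) : Prop :=
  ∀ N : ℕ, ∀ᶠ X : ℕ in atTop, ∃ n, N ≤ n ∧ n ≤ X ∧
    ∀ k, n < k → k ≤ n + ⌊lam * Real.log X ^ 2⌋₊ → k ∉ A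

lemma gapsTail_iff {A : Set ℕ} (hA : A.Infinite) {lam : ℝ} (hlam : 0 < lam) :
    GapsTail A lam ↔ GapsAll A lam := by
  constructor
  · intro h
    filter_upwards [h 0] with X hX
    obtain ⟨n, -, h2, h3⟩ := hX
    exact ⟨n, h2, h3⟩
  · intro h N
    obtain ⟨a₀, ha₀, ha₁⟩ := hA.exists_gt N
    have ht : Tendsto (fun X : ℕ => ⌊lam * Real.log X ^ 2⌋₊) atTop atTop :=
      tendsto_nat_floor_atTop.comp
        (((tendsto_pow_atTop (two_ne_zero)).comp tendsto_log_nat).const_mul_atTop hlam)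
    filter_upwards [h, ht.eventually_ge_atTop a₀] with X hX hX2
    obtain ⟨n, h2, h3⟩ := hX
    refine ⟨n, ?_, h2, h3⟩
    by_contra hcon
    exact h3 a₀ (by omega) (by omega) ha₀

lemma gapsTail_meas {Ω : Type*} {E : ℕ → Set Ω} (lam : ℝ) (N : ℕ) :
    MeasurableSet[Future E N] {ω | GapsTail {n | ω ∈ E n} lam} := by
  have h1 : {ω | GapsTail {n | ω ∈ E n} lam} = ⋂ N' : ℕ, ⋃ X₀ : ℕ, ⋂ X : ℕ, ⋂ _ : X₀ ≤ X,
      ⋃ n : ℕ, ⋃ _ : N + N' ≤ n ∧ n ≤ X, ⋂ k : ℕ,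
        ⋂ _ : n < k ∧ k ≤ n + ⌊lam * Real.log X ^ 2⌋₊, (E k)ᶜ := by
    ext ω
    simp only [GapsTail, eventually_atTop, Set.mem_iUnion, Set.mem_iInter, exists_prop,
      Set.mem_compl_iff]
    constructor
    · intro h N'
      obtain ⟨X₀, hX₀⟩ := h (N + N')
      refine ⟨X₀, fun X hX => ?_⟩
      obtain ⟨n, h1, h2, h3⟩ := hX₀ X hX
      exact ⟨n, ⟨h1, h2⟩, fun k hk => h3 k hk.1 hk.2⟩
    · intro h N'
      obtain ⟨X₀, hX₀⟩ := h N'
      refine ⟨X₀, fun X hX => ?_⟩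
      obtain ⟨n, ⟨h1, h2⟩, h3⟩ := hX₀ X hX
      exact ⟨n, by omega, h2, fun k hk1 hk2 => h3 k ⟨hk1, hk2⟩⟩
  rw [h1]
  refine MeasurableSet.iInter fun N' => MeasurableSet.iUnion fun X₀ => MeasurableSet.iInter fun X =>
    MeasurableSet.iInter fun _ => MeasurableSet.iUnion fun n => MeasurableSet.iUnion fun hn =>
    MeasurableSet.iInter fun k => MeasurableSet.iInter fun hk => (event_future (by omega)).compl

variable {Ω : Type*} [mΩ : MeasurableSpace Ω] {P : Measure Ω} {E : ℕ → Set Ω} {m : ℕ → ℕ}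
  [IsProbabilityMeasure P]

lemma ae_decided (h : RangeDep P E m) (T : ℚ → Set Ω)
    (hT : ∀ q N, MeasurableSet[Future E N] (T q)) :
    ∀ᵐ ω ∂P, ∀ q : ℚ, (P (T q) = 1 → ω ∈ T q) ∧ (P (T q) ≠ 1 → ω ∉ T q) := by
  rw [ae_all_iff]
  intro q
  have hmeas : MeasurableSet (T q) := future_le h.meas 0 _ (hT q 0)
  rcases h.zero_one (T := T q) (fun N => hT q N) with h0 | h1
  · have h2 : ∀ᵐ ω ∂P, ω ∉ T q := measure_eq_zero_iff_ae_notMem.1 h0
    filter_upwards [h2] with ω hω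
    exact ⟨fun h3 => absurd h3 (by rw [h0]; exact zero_ne_one), fun _ => hω⟩
  · have h2 : ∀ᵐ ω ∂P, ω ∈ T q := by
      rw [ae_iff]
      have h3 : {ω | ω ∉ T q} = (T q)ᶜ := rfl
      rw [h3, prob_compl_eq_zero_iff hmeas]
      exact h1
    filter_upwards [h2] with ω hω
    exact ⟨fun _ => hω, fun h3 => absurd h1 h3⟩

lemma Upper.mono {A : Set ℕ} {lam mu : ℝ} (h : LD.Upper A lam) (hle : lam ≤ mu) :
    LD.Upper A mu := by
  unfold LD.Upper at *
  filter_upwards [h] with x hx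
  obtain ⟨n, h1, h2, h3⟩ := hx
  have h4 : lam * Real.log x ^ 2 ≤ mu * Real.log x ^ 2 :=
    mul_le_mul_of_nonneg_right hle (sq_nonneg _)
  exact ⟨n, h1, by linarith, h3⟩

lemma GapsAll.mono {A : Set ℕ} {lam mu : ℝ} (h : GapsAll A lam) (hle : mu ≤ lam) :
    GapsAll A mu := by
  unfold GapsAll at *
  filter_upwards [h] with X hX
  obtain ⟨n, h1, h2⟩ := hX
  have h4 : mu * Real.log X ^ 2 ≤ lam * Real.log X ^ 2 :=
    mul_le_mul_of_nonneg_right hle (sq_nonneg _)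
  have h5 := Nat.floor_mono h4
  exact ⟨n, h1, fun k hk1 hk2 => h2 k hk1 (by omega)⟩

lemma gapsIO_of_not_upper {A : Set ℕ} {lam : ℝ} (hlam : 0 ≤ lam) (h : ¬ LD.Upper A lam) :
    GapsIO A lam := by
  unfold LD.Upper at h
  rw [not_eventually] at h
  refine h.mono fun x hx k hk1 hk2 hk3 => hx ⟨k, hk1, ?_, hk3⟩
  have h4 : (k : ℝ) ≤ ((x + ⌊lam * Real.log x ^ 2⌋₊ : ℕ) : ℝ) := by exact_mod_cast hk2
  have h5 : (⌊lam * Real.log x ^ 2⌋₊ : ℝ) ≤ lam * Real.log x ^ 2 := Nat.floor_le (by positivity)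
  push_cast at h4
  linarith

lemma hitIO_of_not_gapsAll {A : Set ℕ} {lam : ℝ} (h : ¬ GapsAll A lam) : HitIO A lam := by
  unfold GapsAll at h
  rw [not_eventually] at h
  refine h.mono fun X hX n hn => ?_
  push Not at hX
  obtain ⟨k, hk1, hk2, hk3⟩ := hX n hn
  exact ⟨k, hk1, hk2, hk3⟩

lemma one_div_sq_anti {r s : ℝ} (hr : 0 < r) (h : r ≤ s) : 1 / s ^ 2 ≤ 1 / r ^ 2 := by
  apply one_div_le_one_div_of_le (by positivity)
  exact pow_le_pow_left₀ hr.le h 2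

/-- **Every model has a law.** -/
theorem exists_law (h : Model P E m) (hm : ∀ᶠ n : ℕ in atTop, m n ^ 2 ≤ n) :
    ∃ a b : EReal, 0 ≤ a ∧ a ≤ b ∧ ∀ᵐ ω ∂P, {n | ω ∈ E n}.Infinite ∧ Unb {n | ω ∈ E n} ∧
      lowerLaw {n | ω ∈ E n} = a ∧ upperLaw {n | ω ∈ E n} = b := by
  set U : ℚ → Set Ω := fun r => {ω | LD.Upper {n | ω ∈ E n} (1 / (r:ℝ) ^ 2)} with hU
  set V : ℚ → Set Ω := fun r => {ω | GapsTail {n | ω ∈ E n} (1 / (r:ℝ) ^ 2)} with hV
  set a : EReal := sSup {x : EReal | x = 0 ∨ ∃ r : ℚ, (0:ℝ) < r ∧ P (U r) = 1 ∧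
    x = ((r : ℝ) : EReal)} with ha
  set b : EReal := sInf {x : EReal | x = ⊤ ∨ ∃ r : ℚ, (0:ℝ) < r ∧ P (V r) = 1 ∧
    x = ((r : ℝ) : EReal)} with hb
  have ha0 : 0 ≤ a := le_sSup (Or.inl rfl)
  have hb0 : 0 ≤ b := by
    apply le_sInf
    rintro x (rfl | ⟨r, hr, -, rfl⟩)
    · exact le_top
    · exact_mod_cast hr.le
  have hval : ∀ᵐ ω ∂P, {n | ω ∈ E n}.Infinite ∧ Unb {n | ω ∈ E n} ∧
      lowerLaw {n | ω ∈ E n} = a ∧ upperLaw {n | ω ∈ E n} = b := by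
    filter_upwards [basics h hm, ae_decided h.range U (fun q N => upper_meas _ N),
      ae_decided h.range V (fun q N => gapsTail_meas _ N)] with ω h0 h1 h2
    obtain ⟨hinf, hnext, hunb⟩ := h0
    refine ⟨hinf, hunb, le_antisymm ?_ ?_, le_antisymm ?_ ?_⟩
    · -- lower ≤ a
      apply liminf_ratio_le hinf hnext ha0
      intro r hr0 hr1
      apply gapsIO_of_not_upper (by positivity)
      apply (h1 r).2
      intro hP
      exact absurd hr1 (not_lt.2 (le_sSup (Or.inr ⟨r, hr0, hP, rfl⟩)))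
    · -- a ≤ lower
      apply le_liminf_ratio hinf hunb
      intro r hr0 hr1
      rw [ha, lt_sSup_iff] at hr1
      obtain ⟨x, hx, hrx⟩ := hr1
      rcases hx with rfl | ⟨s, hs0, hs1, rfl⟩
      · exfalso
        have : (r:ℝ) < 0 := by exact_mod_cast hrx
        linarith
      · have hrs : (r:ℝ) < s := by exact_mod_cast hrx
        exact Upper.mono ((h1 s).1 hs1) (one_div_sq_anti hr0 hrs.le)
    · -- upper ≤ b
      apply limsup_ratio_le hinf hnext hb0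
      intro r hr0 hr1
      rw [hb, sInf_lt_iff] at hr1
      obtain ⟨x, hx, hrx⟩ := hr1
      rcases hx with rfl | ⟨s, hs0, hs1, rfl⟩
      · exact absurd hrx (not_lt.2 le_top)
      · have hrs : (s:ℝ) < r := by exact_mod_cast hrx
        have h3 : GapsAll {n | ω ∈ E n} (1 / (s:ℝ) ^ 2) :=
          (gapsTail_iff hinf (by positivity)).1 ((h2 s).1 hs1)
        exact h3.mono (one_div_sq_anti hs0 hrs.le)
    · -- b ≤ upper
      apply le_limsup_ratio hinf hunb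
      intro r hr0 hr1
      apply hitIO_of_not_gapsAll
      intro hG
      have h3 : ω ∈ V r := (gapsTail_iff hinf (by positivity)).2 hG
      have h4 : P (V r) = 1 := by
        by_contra hP
        exact (h2 r).2 hP h3
      exact absurd hr1 (not_lt.2 (sInf_le (Or.inr ⟨r, hr0, h4, rfl⟩)))
  refine ⟨a, b, ha0, ?_, hval⟩
  obtain ⟨ω, -, -, h3, h4⟩ := hval.exists
  rw [← h3, ← h4]
  exact lower_le_upper _

end Pool.Agent.H41.SL
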