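import Pool.Agent.H41.LD.Main

/-! # Recipes: block models which can be mixed -/

set_option autoImplicit false
set_option linter.unusedSectionVars false

namespace Pool.Agent.H41.SL

open MeasureTheory Filter Topology ProbabilityTheory
open Pool.Agent.H34.ND (Free)
open Pool.Agent.H41.LD

/-- a block model: the block which starts at `b` is `(b, b + len b]`, with the avoidance function
`φ b`; the range of dependence is `m` -/
structure Recipe (m len : ℕ → ℕ) (φ : ℕ → Finset ℕ → ℝ) : Prop where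
  pos : ∀ b, 1 ≤ len b
  short : ∀ η : ℝ, 0 < η → ∀ᶠ b : ℕ in atTop, (len b : ℝ) ≤ η * Real.log b ^ 2
  real : ∀ b, Realizable (φ b) (Finset.Ioc b (b + len b))
  range : ∀ (b n : ℕ) (S T : Finset ℕ), (∀ s ∈ S, b < s ∧ s ≤ b + len b ∧ s ≤ n) →
    (∀ t ∈ T, b < t ∧ t ≤ b + len b ∧ n + m n < t) → S.Nonempty → T.Nonempty →
    φ b (S ∪ T) = φ b S * φ b T
  dens : ∀ b n, b < n → n ≤ b + len b → φ b {n} = 1 - 1 / LL b

variable {m len : ℕ → ℕ} {φ : ℕ → Finset ℕ → ℝ}

lemma Recipe.exists_model (R : Recipe m len φ) :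
    ∃ (Ω : Type) (_ : MeasurableSpace Ω) (P : Measure Ω) (_ : IsProbabilityMeasure P)
      (E : ℕ → Set Ω), Blocks P E (blk len) (fun j => φ (blk len j)) ∧ Model P E m := by
  have hreal : ∀ j, Realizable (φ (blk len j)) (Finset.Ioc (blk len j) (blk len (j + 1))) :=
    fun j => R.real (blk len j)
  obtain ⟨Ω, mΩ, P, hP, E, hB⟩ := exists_blocks' (φ := fun j => φ (blk len j))
    (blk_mono R.pos) rfl hreal
  refine ⟨Ω, mΩ, P, hP, E, hB, ⟨hB.rangeDep ?_, ?_⟩⟩
  · intro n j S T hS hT hSn hTn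
    exact R.range (blk len j) n S T (fun s hs => hS s hs) (fun t ht => hT t ht) hSn hTn
  · apply dens_of_blocks R.pos R.short hB
    intro j n h1 h2
    exact R.dens (blk len j) n h1 h2

open Classical in
/-- the mixture of two recipes -/
lemma Recipe.mix {len₁ len₂ : ℕ → ℕ} {φ₁ φ₂ : ℕ → Finset ℕ → ℝ} (R₁ : Recipe m len₁ φ₁)
    (R₂ : Recipe m len₂ φ₂) (ty : ℕ → Prop) :
    Recipe m (fun b => if ty b then len₁ b else len₂ b) (fun b => if ty b then φ₁ b else φ₂ b) := by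
  refine ⟨fun b => ?_, fun η hη => ?_, fun b => ?_, fun b => ?_, fun b => ?_⟩
  · split_ifs
    exacts [R₁.pos b, R₂.pos b]
  · filter_upwards [R₁.short η hη, R₂.short η hη] with b h1 h2
    split_ifs
    exacts [h1, h2]
  · by_cases h : ty b
    · simp only [h, if_true]
      exact R₁.real b
    · simp only [h, if_false]
      exact R₂.real b
  · by_cases h : ty b
    · simp only [h, if_true]
      exact R₁.range b
    · simp only [h, if_false]
      exact R₂.range b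
  · by_cases h : ty b
    · simp only [h, if_true]
      exact R₁.dens b
    · simp only [h, if_false]
      exact R₂.dens b

/-- the probability that the block is empty is at most `exp (- σ len / log b)` -/
def RGe (len : ℕ → ℕ) (φ : ℕ → Finset ℕ → ℝ) (σ : ℝ) : Prop :=
  ∀ᶠ b : ℕ in atTop, φ b (Finset.Ioc b (b + len b)) ≤ Real.exp (-(σ * len b / Real.log b))

/-- the probability that the block is empty is at least `exp (- σ len / log b)` -/
def RLe (len : ℕ → ℕ) (φ : ℕ → Finset ℕ → ℝ) (σ : ℝ) : Prop :=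
  ∀ᶠ b : ℕ in atTop, Real.exp (-(σ * len b / Real.log b)) ≤ φ b (Finset.Ioc b (b + len b))

/-- the rate of the recipe is `a ^ 2` -/
structure HasRate (len : ℕ → ℕ) (φ : ℕ → Finset ℕ → ℝ) (a : EReal) : Prop where
  ge : ∀ s : ℝ, 0 < s → (s : EReal) < a → RGe len φ (s ^ 2)
  le : ∀ s : ℝ, 0 < s → a < (s : EReal) → RLe len φ (s ^ 2)

lemma hasRate_sqrt {ρ : ℝ} (hρ : 0 < ρ) (h1 : ∀ σ, σ < ρ → 0 < σ → RGe len φ σ)
    (h2 : ∀ σ, ρ < σ → RLe len φ σ) : HasRate len φ ((√ρ : ℝ) : EReal) := by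
  have hs : √ρ ^ 2 = ρ := Real.sq_sqrt hρ.le
  refine ⟨fun s hs0 hs1 => h1 _ ?_ (by positivity), fun s hs0 hs1 => h2 _ ?_⟩
  · have hs2 : s < √ρ := by exact_mod_cast hs1
    rw [← hs]
    exact pow_lt_pow_left₀ hs2 hs0.le (by norm_num)
  · have hs2 : √ρ < s := by exact_mod_cast hs1
    rw [← hs]
    exact pow_lt_pow_left₀ hs2 (Real.sqrt_nonneg _) (by norm_num)

lemma core_recipe (m : ℕ → ℕ) (c : ℝ) (ρ : ℕ → ℝ) :
    ∃ φ : ℕ → Finset ℕ → ℝ, Recipe m hlen φ ∧
      ∀ b, φ b (Finset.Ioc b (b + hlen b)) = qq m c ρ b := by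
  classical
  have hu : ∀ b : ℕ, ∃ u : ℝ, 0 ≤ u ∧ u ≤ 1 / LL b ∧ (∀ k ≤ hlen b, 0 < zz (rr m c b) u k) ∧
      zz (rr m c b) u (hlen b) * ((1 - 1 / LL b) / (1 - u)) ^ hlen b = qq m c ρ b := by
    intro b
    have h1 := inv_LL_le b
    have h2 := LL_pos b
    have h0 : 0 < 1 / LL b := by positivity
    apply exists_density h0.le (by linarith)
    · apply lt_min
      · apply pow_pos
        linarith
      · exact lt_max_of_lt_right (Real.exp_pos _)
    · apply le_min
      · exact zmin_le_pow h0.le (by linarith)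
      · exact le_max_left _ _
    · exact min_le_left _ _
  choose u hu0 hu1 hu2 hu3 using hu
  set s : ℕ → ℝ := fun b => (1 - 1 / LL b) / (1 - u b) with hs
  have hs0 : ∀ b, 0 < s b ∧ s b ≤ 1 := by
    intro b
    have h1 := inv_LL_le b
    have h2 := hu1 b
    refine ⟨div_pos (by linarith) (by linarith), ?_⟩
    rw [div_le_one (by linarith)]
    linarith
  set φ : ℕ → Finset ℕ → ℝ := fun b S => Z (rr m c b) (u b) S * s b ^ S.card with hφ
  refine ⟨φ, ⟨one_le_hlen, hlen_short, fun b => ?_, ?_, ?_⟩, ?_⟩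
  · apply (realizable_Z (N := hlen b) (a := b) (hu0 _) (hu2 _) ?_).mul
      (realizable_pow (hs0 _).1 (hs0 _).2 _)
    exact Finset.Subset.refl _
  · intro b n S T hS hT hSn hTn
    obtain ⟨s₀, hs₀⟩ := hSn
    have h1 : b ≤ n := by
      have := hS s₀ hs₀
      omega
    have h2 : rr m c b ≤ m n := (min_le_left _ _).trans (low_le m h1)
    have h3 : ∀ s ∈ S, ∀ t ∈ T, s + rr m c b < t := by
      intro s hs t ht
      have h4 := hS s hs
      have h5 := hT t ht
      omega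
    have h4 : Disjoint S T := by
      rw [Finset.disjoint_left]
      intro s hs ht
      have := h3 s hs s ht
      omega
    simp only [hφ]
    rw [Z_union T.card T le_rfl h3, Finset.card_union_of_disjoint h4, pow_add]
    ring
  · intro b n _ _
    simp only [hφ, hs]
    rw [Z_singleton, Finset.card_singleton, pow_one]
    have h1 := inv_LL_le b
    have h2 := hu1 b
    have h3 : 1 - u b ≠ 0 := by linarith
    field_simp
  · intro b
    simp only [hφ]
    rw [Z_Ioc, Nat.card_Ioc, Nat.add_sub_cancel_left]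
    exact hu3 _

lemma clus_recipe {m : ℕ → ℕ} (K : ℕ → ℕ) {t : ℝ} (ht0 : 0 ≤ t) (ht1 : t ≤ 1)
    (hK1 : ∀ b, 1 ≤ K b)
    (hs : ∀ η : ℝ, 0 < η → ∀ᶠ b : ℕ in atTop, (K b : ℝ) ≤ η * Real.log b ^ 2)
    (hm : ∀ b n, b ≤ n → K b ≤ 1 + m n) :
    ∃ φ : ℕ → Finset ℕ → ℝ, Recipe m K φ ∧
      ∀ b, φ b (Finset.Ioc b (b + K b)) = qc K t b := by
  classical
  have hx : ∀ b : ℕ, 0 < 1 / LL b := fun b => by have := LL_pos b; positivity
  have htx : ∀ b : ℕ, 0 ≤ t * (1 / LL b) ∧ t * (1 / LL b) ≤ 1 / LL b := fun b =>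
    ⟨mul_nonneg ht0 (hx b).le, by nlinarith [hx b]⟩
  set s : ℕ → ℝ := fun b => (1 - 1 / LL b) / (1 - t * (1 / LL b)) with hs'
  have hs0 : ∀ b, 0 < s b ∧ s b ≤ 1 := by
    intro b
    have h1 := inv_LL_le b
    have h2 := htx b
    refine ⟨div_pos (by linarith) (by linarith), ?_⟩
    rw [div_le_one (by linarith)]
    linarith
  set φ : ℕ → Finset ℕ → ℝ := fun b S =>
    (if S = ∅ then 1 else 1 - t * (1 / LL b)) * s b ^ S.card with hφ
  refine ⟨φ, ⟨hK1, hs, fun b => ?_, ?_, ?_⟩, ?_⟩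
  · have h1 := inv_LL_le b
    have h2 := htx b
    exact (realizable_full h2.1 (by linarith) _).mul (realizable_pow (hs0 _).1 (hs0 _).2 _)
  · intro b n S T hS hT hSn hTn
    exfalso
    obtain ⟨s₀, hs₀⟩ := hSn
    obtain ⟨t₀, ht₀⟩ := hTn
    have h1 := hS s₀ hs₀
    have h2 := hT t₀ ht₀
    have h3 := hm b n (by omega)
    omega
  · intro b n _ _
    simp only [hφ, hs', Finset.singleton_ne_empty, if_false, Finset.card_singleton, pow_one]
    have h1 := inv_LL_le b
    have h2 := htx b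
    rw [mul_div_cancel₀]
    linarith
  · intro b
    have h2 : Finset.Ioc b (b + K b) ≠ ∅ := by
      rw [Ne, Finset.Ioc_eq_empty_iff, not_not]
      have := hK1 b
      omega
    simp only [hφ, h2, if_false]
    rw [Nat.card_Ioc, Nat.add_sub_cancel_left]
    rfl

/-! ### the rates of the recipes -/

lemma exists_core_rate {m : ℕ → ℕ} {c ρ : ℝ} (hc : 0 ≤ c)
    (hm : ∀ ε : ℝ, 0 < ε → ∀ᶠ n : ℕ in atTop, (c - ε) * Real.log n ≤ m n) (hρ : 1 ≤ ρ)
    (htau : ∀ σ < ρ, ∃ i, σ < tau c i) :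
    ∃ (len : ℕ → ℕ) (φ : ℕ → Finset ℕ → ℝ), Recipe m len φ ∧
      HasRate len φ ((√ρ : ℝ) : EReal) := by
  obtain ⟨φ, hR, hq⟩ := core_recipe m c fun _ => ρ
  refine ⟨hlen, φ, hR, hasRate_sqrt (by linarith) ?_ ?_⟩
  · intro σ hσ1 hσ0
    obtain ⟨i, hi⟩ := htau σ hσ1
    unfold RGe
    filter_upwards [ev_zmin hc hm hσ0.le hi, ev_rate hσ1] with b h1 h2
    rw [hq]
    refine (min_le_right _ _).trans (max_le h1 (Real.exp_le_exp.2 (neg_le_neg ?_)))
    rw [mul_div_right_comm, mul_div_right_comm]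
    exact mul_le_mul_of_nonneg_right h2 (Nat.cast_nonneg _)
  · intro σ hσ1
    unfold RLe
    filter_upwards [ev_rate' hσ1 (by linarith), ev_log_ge 1] with b h1 h2
    rw [hq]
    apply le_min
    · have h3 := inv_LL_le b
      refine le_trans ?_ (one_sub_pow_ge_exp (by linarith) (hlen b))
      apply Real.exp_le_exp.2
      apply neg_le_neg
      rw [mul_div_right_comm, mul_comm]
      apply mul_le_mul_of_nonneg_right _ (Nat.cast_nonneg _)
      have h4 : LL b = 2 + Real.log b := rfl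
      have h5 := LL_pos b
      have h6 : 1 / LL b / (1 - 1 / LL b) = 1 / (LL b - 1) := by
        have h7 : LL b - 1 ≠ 0 := by rw [h4]; linarith
        field_simp
      rw [h6, div_le_div_iff₀ (by rw [h4]; linarith) (by linarith), h4]
      nlinarith
    · apply le_max_of_le_right
      apply Real.exp_le_exp.2
      apply neg_le_neg
      rw [mul_div_right_comm, mul_div_right_comm]
      exact mul_le_mul_of_nonneg_right h1 (Nat.cast_nonneg _)

lemma exists_core_top {m : ℕ → ℕ} {c : ℝ} (hc : 0 ≤ c)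
    (hm : ∀ ε : ℝ, 0 < ε → ∀ᶠ n : ℕ in atTop, (c - ε) * Real.log n ≤ m n)
    (htau : ∀ σ, ∃ i, σ < tau c i) :
    ∃ (len : ℕ → ℕ) (φ : ℕ → Finset ℕ → ℝ), Recipe m len φ ∧ HasRate len φ ⊤ := by
  obtain ⟨φ, hR, hq⟩ := core_recipe m c fun b => LL b
  refine ⟨hlen, φ, hR, fun s hs _ => ?_, fun s _ hs => absurd hs (not_lt.2 le_top)⟩
  obtain ⟨i, hi⟩ := htau (s ^ 2)
  unfold RGe
  filter_upwards [ev_zmin hc hm (by positivity) hi, ev_log_ge (s ^ 2), ev_log_ge 1] with b h1 h2 h3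
  rw [hq]
  refine (min_le_right _ _).trans (max_le h1 (Real.exp_le_exp.2 (neg_le_neg ?_)))
  have h4 := LL_pos b
  rw [mul_div_right_comm, mul_div_right_comm]
  apply mul_le_mul_of_nonneg_right _ (Nat.cast_nonneg _)
  rw [div_self h4.ne', div_le_one (by linarith)]
  exact h2

lemma exists_clus_rate {m : ℕ → ℕ} {K₀ : ℕ} {x : ℝ} (hm : ∀ᶠ n : ℕ in atTop, K₀ ≤ 1 + m n)
    (hx1 : 1 ≤ x) (hxK : x ≤ K₀) :
    ∃ (len : ℕ → ℕ) (φ : ℕ → Finset ℕ → ℝ), Recipe m len φ ∧
      HasRate len φ ((√(1 / x) : ℝ) : EReal) := by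
  have hK₀ : 1 ≤ K₀ := by
    have : (1:ℝ) ≤ K₀ := hx1.trans hxK
    exact_mod_cast this
  obtain ⟨n₀, hn₀⟩ := eventually_atTop.1 hm
  set K : ℕ → ℕ := fun b => if K₀ ≤ 1 + low m b then K₀ else 1 with hK
  have hK1 : ∀ b, 1 ≤ K b := fun b => by simp only [hK]; split_ifs <;> omega
  have hKm : ∀ b n, b ≤ n → K b ≤ 1 + m n := by
    intro b n hbn
    simp only [hK]
    have := low_le m hbn
    split_ifs <;> omega
  have hKev : ∀ᶠ b : ℕ in atTop, K b = K₀ := by
    filter_upwards [eventually_ge_atTop n₀] with b hb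
    obtain ⟨n, h1, h2⟩ := low_mem m b
    have h3 := hn₀ n (hb.trans h1)
    simp only [hK]
    rw [if_pos (by rw [← h2]; exact h3)]
  have hs : ∀ η : ℝ, 0 < η → ∀ᶠ b : ℕ in atTop, (K b : ℝ) ≤ η * Real.log b ^ 2 := by
    intro η hη
    have h1 : Tendsto (fun b : ℕ => η * Real.log b ^ 2) atTop atTop :=
      ((tendsto_pow_atTop (by norm_num)).comp tendsto_log_nat).const_mul_atTop hη
    filter_upwards [h1.eventually_ge_atTop (K₀ : ℝ), hKev] with b h2 h3
    rw [h3]
    exact h2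
  obtain ⟨t, ht0, ht1, ht⟩ : ∃ t : ℝ, 0 ≤ t ∧ t ≤ 1 ∧ t / K₀ + 1 - t = 1 / x := by
    have hx0 : 0 < x := by linarith
    have hK0 : (1:ℝ) ≤ K₀ := hx1.trans hxK
    rcases hK0.eq_or_lt with h | h
    · have h1 : x = 1 := le_antisymm (by rw [h]; exact hxK) hx1
      exact ⟨0, le_rfl, by norm_num, by rw [h1]; norm_num⟩
    · have h1 : 0 < 1 - 1 / (K₀ : ℝ) := by
        rw [sub_pos, div_lt_one (by linarith)]
        exact h
      refine ⟨(1 - 1 / x) / (1 - 1 / K₀), ?_, ?_, ?_⟩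
      · apply div_nonneg _ h1.le
        rw [sub_nonneg, div_le_one hx0]
        exact hx1
      · rw [div_le_one h1]
        have : 1 / (K₀ : ℝ) ≤ 1 / x := one_div_le_one_div_of_le hx0 hxK
        linarith
      · have h2 : (K₀ : ℝ) - 1 ≠ 0 := by linarith
        field_simp
        ring
  have hg : Tendsto (fun b : ℕ => t / K b + 1 - t) atTop (𝓝 (1 / x)) := by
    rw [← ht]
    apply Tendsto.congr' _ tendsto_const_nhds
    filter_upwards [hKev] with b hb
    rw [hb]
  have hx0 : 0 < x := by linarith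
  obtain ⟨φ, hR, hq⟩ := clus_recipe K ht0 ht1 hK1 hs hKm
  refine ⟨K, φ, hR, hasRate_sqrt (by positivity) ?_ ?_⟩
  · intro σ hσ1 _
    unfold RGe
    filter_upwards [ev_upper ht0 ht1 hK1 hg hσ1] with b h1
    rw [hq]
    exact h1
  · intro σ hσ1
    have hσ0 : 0 ≤ σ := by
      have : 0 < 1 / x := by positivity
      linarith
    unfold RLe
    filter_upwards [ev_lower ht0 ht1 hK1 hg hσ1 hσ0] with b h1
    rw [hq]
    exact h1

lemma exists_clus_zero {m : ℕ → ℕ} (hm : Tendsto m atTop atTop) :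
    ∃ (len : ℕ → ℕ) (φ : ℕ → Finset ℕ → ℝ), Recipe m len φ ∧ HasRate len φ 0 := by
  set κ : ℕ → ℕ := fun b => ⌊√(Real.log b)⌋₊ with hκ
  have hκle : ∀ b : ℕ, (κ b : ℝ) ≤ √(Real.log b) := fun b => Nat.floor_le (Real.sqrt_nonneg _)
  have hκtend : Tendsto κ atTop atTop :=
    tendsto_nat_floor_atTop.comp (Real.tendsto_sqrt_atTop.comp tendsto_log_nat)
  set K : ℕ → ℕ := fun b => 1 + min (low m b) (κ b) with hK
  have hK1 : ∀ b, 1 ≤ K b := fun b => by simp only [hK]; omega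
  have hKm : ∀ b n, b ≤ n → K b ≤ 1 + m n := by
    intro b n hbn
    have := low_le m hbn
    simp only [hK]
    omega
  have hKtend : Tendsto (fun b : ℕ => (K b : ℝ)) atTop atTop := by
    apply tendsto_natCast_atTop_atTop.comp
    rw [tendsto_atTop]
    intro N
    filter_upwards [(low_tendsto hm).eventually_ge_atTop N, hκtend.eventually_ge_atTop N] with
      b h1 h2
    simp only [hK]
    omega
  have hs : ∀ η : ℝ, 0 < η → ∀ᶠ b : ℕ in atTop, (K b : ℝ) ≤ η * Real.log b ^ 2 := by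
    intro η hη
    filter_upwards [ev_log_ge (2 / η), ev_log_ge 1] with b h2 h3
    rw [div_le_iff₀ hη] at h2
    have h4 : (K b : ℝ) ≤ 1 + κ b := by
      have : K b ≤ 1 + κ b := by simp only [hK]; omega
      exact_mod_cast this
    have h5 : √(Real.log b) ≤ Real.log b := by
      rw [Real.sqrt_le_left (by linarith)]
      nlinarith
    have h6 := hκle b
    nlinarith
  have hg : Tendsto (fun b : ℕ => (1:ℝ) / K b + 1 - 1) atTop (𝓝 0) := by
    have h1 : Tendsto (fun b : ℕ => (1:ℝ) / K b) atTop (𝓝 0) := tendsto_const_nhds.div_atTop hKtend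
    refine h1.congr fun b => by ring
  obtain ⟨φ, hR, hq⟩ := clus_recipe K zero_le_one le_rfl hK1 hs hKm
  refine ⟨K, φ, hR, fun s hs0 hs1 => ?_, fun s hs0 _ => ?_⟩
  · exfalso
    have : s < 0 := by exact_mod_cast hs1
    linarith
  · have hσ : (0:ℝ) < s ^ 2 := by positivity
    unfold RLe
    filter_upwards [ev_lower zero_le_one le_rfl hK1 hg hσ hσ.le] with b h1
    rw [hq]
    exact h1

end Pool.Agent.H41.SL
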